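import Mathlib

set_option autoImplicit false

open MeasureTheory Set
open scoped ENNReal

namespace Pool.Agent.MP_1b0fb5_lc

/-- The first `n` values of `X`, as a list. -/
def pre (X : ℕ → Bool) (n : ℕ) : List Bool := (List.range n).map X

@[simp] lemma pre_length (X : ℕ → Bool) (n : ℕ) : (pre X n).length = n := by simp [pre]

lemma pre_take (X : ℕ → Bool) {m n : ℕ} (h : m ≤ n) : (pre X n).take m = pre X m := by
  simp [pre, ← List.map_take, List.take_range, h]

lemma pre_eq_ofFn (X : ℕ → Bool) (n : ℕ) : pre X n = List.ofFn (fun i : Fin n => X i) := by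
  apply List.ext_getElem
  · simp [pre]
  · intro i h1 h2
    simp [pre]

lemma pre_prefix (X : ℕ → Bool) {m n : ℕ} (h : m ≤ n) : pre X m <+: pre X n := by
  rw [← pre_take X h]; exact List.take_prefix _ _

lemma prefix_pre_iff (X : ℕ → Bool) (σ : List Bool) (n : ℕ) :
    σ <+: pre X n ↔ σ.length ≤ n ∧ σ = pre X σ.length := by
  constructor
  · intro h
    have hl := h.length_le
    rw [pre_length] at hl
    refine ⟨hl, ?_⟩
    have := List.prefix_iff_eq_take.1 h
    rwa [pre_take X hl] at this
  · rintro ⟨hl, h⟩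
    rw [h]
    exact pre_prefix X hl

/-- fair coin -/
noncomputable def coin : Measure Bool := (2⁻¹ : ℝ≥0∞) • (Measure.count : Measure Bool)

lemma coin_singleton (b : Bool) : coin {b} = 2⁻¹ := by
  simp [coin]

instance : IsProbabilityMeasure coin := by
  constructor
  have : (Set.univ : Set Bool) = {true, false} := by ext b; cases b <;> simp
  simp only [coin, Measure.smul_apply, smul_eq_mul]
  rw [Measure.count_univ]
  simp
  exact ENNReal.inv_mul_cancel (by norm_num) (by norm_num)

/-- The uniform measure on Cantor space. -/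
noncomputable def mu : Measure (ℕ → Bool) := Measure.infinitePi (fun _ : ℕ => coin)

instance : IsProbabilityMeasure mu := by unfold mu; infer_instance

lemma mu_cyl (s : ℕ) (τ : Fin s → Bool) :
    mu {X | (fun i : Fin s => X i) = τ} = (2⁻¹ : ℝ≥0∞) ^ s := by
  have h : {X : ℕ → Bool | (fun i : Fin s => X i) = τ} =
      Set.pi (Finset.range s : Finset ℕ) (fun i => if h : i < s then {τ ⟨i, h⟩} else Set.univ) := by
    ext X
    simp only [Set.mem_ofPred_eq, Set.mem_pi, Finset.coe_range, Set.mem_Iio]
    constructor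
    · rintro rfl i hi
      simp [hi]
    · intro hX
      ext i
      have := hX i i.2
      simpa using this
  rw [h, mu, Measure.infinitePi_pi]
  · have : ∀ i ∈ Finset.range s, coin (if h : i < s then {τ ⟨i, h⟩} else Set.univ) = 2⁻¹ := by
      intro i hi
      rw [dif_pos (Finset.mem_range.1 hi), coin_singleton]
    rw [Finset.prod_congr rfl this]
    simp
  · intro i _
    exact MeasurableSet.of_discrete

lemma measurable_restr (s : ℕ) : Measurable (fun (X : ℕ → Bool) (i : Fin s) => X i) := by
  fun_prop

lemma mu_fin (s : ℕ) (S : Finset (Fin s → Bool)) :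
    mu {X | (fun i : Fin s => X i) ∈ S} = S.card * (2⁻¹ : ℝ≥0∞) ^ s := by
  have h : {X : ℕ → Bool | (fun i : Fin s => X i) ∈ S} =
      ⋃ τ ∈ S, {X | (fun i : Fin s => X i) = τ} := by
    ext X; simp
  rw [h, measure_biUnion_finset]
  · rw [Finset.sum_congr rfl (fun τ _ => mu_cyl s τ)]
    simp
  · intro a _ b _ hab
    simp only [Function.onFun]
    rw [Set.disjoint_left]
    intro X h1 h2
    simp only [Set.mem_ofPred_eq] at h1 h2
    exact hab (h1.symm.trans h2)
  · intro τ _
    exact (measurable_restr s) (MeasurableSet.singleton τ)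

/-- Sets decided by the first `s` bits. -/
lemma measurable_clopen (s : ℕ) (p : List Bool → Prop) : MeasurableSet {X | p (pre X s)} := by
  have : {X | p (pre X s)} = (fun (X : ℕ → Bool) (i : Fin s) => X i) ⁻¹' {τ | p (List.ofFn τ)} := by
    ext X; simp [pre_eq_ofFn]
  rw [this]
  exact (measurable_restr s) MeasurableSet.of_discrete

lemma isClopen_clopen (s : ℕ) (p : List Bool → Prop) : IsClopen {X | p (pre X s)} := by
  have : {X | p (pre X s)} = (fun (X : ℕ → Bool) (i : Fin s) => X i) ⁻¹' {τ | p (List.ofFn τ)} := by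
    ext X; simp [pre_eq_ofFn]
  rw [this]
  apply IsClopen.preimage (isClopen_discrete _)
  fun_prop

open Classical in
lemma mu_clopen (s : ℕ) (p : List Bool → Prop) :
    mu {X | p (pre X s)} =
      ((Finset.univ : Finset (Fin s → Bool)).filter (fun τ => p (List.ofFn τ))).card *
        (2⁻¹ : ℝ≥0∞) ^ s := by
  rw [← mu_fin]
  congr 1
  ext X
  simp [pre_eq_ofFn]

end Pool.Agent.MP_1b0fb5_lc
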