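import Mathlib

set_option autoImplicit false

namespace Pool.Agent.MP_1b0fb5_lc

open Finset

lemma sum_two_pow_ne {N : ℕ} (Y : Fin N → Bool) :
    ∑ C : Fin N → Bool, 2 ^ (#{i | Y i ≠ C i}) = 3 ^ N := by
  have h1 : ∀ C : Fin N → Bool, 2 ^ (#{i | Y i ≠ C i}) = ∏ i, (if Y i ≠ C i then 2 else 1) := by
    intro C
    rw [Finset.prod_ite]
    simp
  simp_rw [h1]
  have h2 := Finset.prod_univ_sum (fun _ : Fin N => (Finset.univ : Finset Bool))
    (fun i b => (if Y i ≠ b then 2 else 1 : ℕ))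
  rw [Fintype.piFinset_univ] at h2
  rw [← h2]
  have h3 : ∀ i : Fin N, ∑ b : Bool, (if Y i ≠ b then 2 else 1 : ℕ) = 3 := by
    intro i
    rw [Fintype.sum_bool]
    cases Y i <;> simp
  rw [Finset.prod_congr rfl (fun i _ => h3 i)]
  simp

lemma exists_good {ι : Type*} (A : Finset ι) (M N : ℕ) (hN : N = 4 * M) (Y : ι → Fin N → Bool) :
    ∃ C : Fin N → Bool, #(A.filter (fun a => #{i | Y a i = C i} < M)) * 128 ^ M ≤ #A * 81 ^ M := by
  by_contra hcon
  simp only [not_exists, not_le] at hcon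
  have h1 : ∑ C : Fin N → Bool, (#A * 81 ^ M) <
      ∑ C : Fin N → Bool, #(A.filter (fun a => #{i | Y a i = C i} < M)) * 128 ^ M :=
    Finset.sum_lt_sum_of_nonempty Finset.univ_nonempty (fun C _ => hcon C)
  have h2 : ∀ C : Fin N → Bool, #(A.filter (fun a => #{i | Y a i = C i} < M)) * 8 ^ M ≤
      ∑ a ∈ A, 2 ^ (#{i | Y a i ≠ C i}) := by
    intro C
    calc #(A.filter (fun a => #{i | Y a i = C i} < M)) * 8 ^ M
        = ∑ a ∈ A.filter (fun a => #{i | Y a i = C i} < M), 8 ^ M := by simp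
      _ ≤ ∑ a ∈ A.filter (fun a => #{i | Y a i = C i} < M), 2 ^ (#{i | Y a i ≠ C i}) := by
        apply Finset.sum_le_sum
        intro a ha
        rw [Finset.mem_filter] at ha
        have hc := Finset.card_filter_add_card_filter_not (s := (Finset.univ : Finset (Fin N)))
          (fun i => Y a i = C i)
        rw [Finset.card_univ, Fintype.card_fin] at hc
        have h3 : 3 * M ≤ #{i | Y a i ≠ C i} := by
          have := ha.2
          simp only [ne_eq]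
          omega
        calc 8 ^ M = 2 ^ (3 * M) := by rw [pow_mul]; norm_num
          _ ≤ 2 ^ (#{i | Y a i ≠ C i}) := Nat.pow_le_pow_right (by norm_num) h3
      _ ≤ ∑ a ∈ A, 2 ^ (#{i | Y a i ≠ C i}) :=
        Finset.sum_le_sum_of_subset (Finset.filter_subset _ _)
  have h3 : ∑ C : Fin N → Bool, #(A.filter (fun a => #{i | Y a i = C i} < M)) * 8 ^ M ≤
      #A * 3 ^ N := by
    calc _ ≤ ∑ C : Fin N → Bool, ∑ a ∈ A, 2 ^ (#{i | Y a i ≠ C i}) :=
          Finset.sum_le_sum (fun C _ => h2 C)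
      _ = ∑ a ∈ A, ∑ C : Fin N → Bool, 2 ^ (#{i | Y a i ≠ C i}) := Finset.sum_comm
      _ = ∑ a ∈ A, 3 ^ N := Finset.sum_congr rfl (fun a _ => sum_two_pow_ne (Y a))
      _ = #A * 3 ^ N := by simp
  have h4 : ∑ C : Fin N → Bool, #(A.filter (fun a => #{i | Y a i = C i} < M)) * 128 ^ M ≤
      16 ^ M * (#A * 3 ^ N) := by
    have : ∑ C : Fin N → Bool, #(A.filter (fun a => #{i | Y a i = C i} < M)) * 128 ^ M =
        16 ^ M * ∑ C : Fin N → Bool, #(A.filter (fun a => #{i | Y a i = C i} < M)) * 8 ^ M := by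
      rw [Finset.mul_sum]
      refine Finset.sum_congr rfl (fun C _ => ?_)
      have : (128 : ℕ) ^ M = 16 ^ M * 8 ^ M := by rw [← mul_pow]; norm_num
      rw [this]; ring
    rw [this]
    exact Nat.mul_le_mul_left _ h3
  have h5 : ∑ C : Fin N → Bool, (#A * 81 ^ M) = 16 ^ M * (#A * 3 ^ N) := by
    rw [Finset.sum_const, Finset.card_univ]
    simp only [Fintype.card_fun, Fintype.card_bool, Fintype.card_fin, smul_eq_mul]
    rw [hN, pow_mul, pow_mul]
    norm_num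
  rw [h5] at h1
  exact absurd h1 (not_lt.2 h4)

lemma pow_bound (k : ℕ) (hk : 6 ≤ k) : 2 ^ (k + 1) * 81 ^ (2 ^ (k - 2)) ≤ 128 ^ (2 ^ (k - 2)) := by
  obtain ⟨j, rfl⟩ : ∃ j, k = j + 6 := ⟨k - 6, by omega⟩
  have h1 : 2 ^ (j + 6 - 2) = 2 * 2 ^ (j + 3) := by
    rw [show j + 6 - 2 = (j + 3) + 1 by omega, pow_succ]; ring
  rw [h1, pow_mul, pow_mul]
  have h2 : j + 6 + 1 ≤ 2 ^ (j + 3) := by
    induction j with
    | zero => norm_num
    | succ n ih =>
      have := ih (by omega) (by rw [show n + 6 - 2 = (n + 3) + 1 by omega, pow_succ]; ring)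
      rw [show n + 1 + 3 = (n + 3) + 1 by omega, pow_succ]
      omega
  calc 2 ^ (j + 6 + 1) * (81 ^ 2) ^ (2 ^ (j + 3))
      ≤ 2 ^ (2 ^ (j + 3)) * (81 ^ 2) ^ (2 ^ (j + 3)) :=
        Nat.mul_le_mul_right _ (Nat.pow_le_pow_right (by norm_num) h2)
    _ = (2 * 81 ^ 2) ^ (2 ^ (j + 3)) := by rw [mul_pow]
    _ ≤ (128 ^ 2) ^ (2 ^ (j + 3)) := Nat.pow_le_pow_left (by norm_num) _

end Pool.Agent.MP_1b0fb5_lc
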