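import Pool.Agent.MP_1b0fb5_lc.Basic

set_option autoImplicit false

namespace Pool.Agent.MP_1b0fb5_lc

section closure

variable {α : Type*} [Primcodable α]

lemma computable_bsum {f : α → ℕ → ℕ} {b : α → ℕ}
    (hf : Computable₂ f) (hb : Computable b) :
    Computable fun a => ∑ i ∈ Finset.range (b a), f a i := by
  have h : Computable₂ (fun (a : α) (p : ℕ × ℕ) => p.2 + f a p.1) := by
    have h1 : Computable₂ (fun (a : α) (p : ℕ × ℕ) => f a p.1) :=
      hf.comp₂ Computable.fst.to₂ ((Computable.fst.comp Computable.snd).to₂)
    exact Primrec.nat_add.to_comp.comp₂ ((Computable.snd.comp Computable.snd).to₂) h1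
  refine (Computable.nat_rec hb (Computable.const 0) h).of_eq ?_
  intro a
  induction b a with
  | zero => simp
  | succ n ih => rw [Finset.sum_range_succ, ← ih]

lemma computable_ball {p : α → ℕ → Bool} {b : α → ℕ}
    (hp : Computable₂ p) (hb : Computable b) :
    Computable fun a => decide (∀ i < b a, p a i = true) := by
  have h : Computable₂ (fun (a : α) (q : ℕ × Bool) => q.2 && p a q.1) := by
    have h1 : Computable₂ (fun (a : α) (q : ℕ × Bool) => p a q.1) :=
      hp.comp₂ Computable.fst.to₂ ((Computable.fst.comp Computable.snd).to₂)
    exact Primrec.and.to_comp.comp₂ ((Computable.snd.comp Computable.snd).to₂) h1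
  refine (Computable.nat_rec hb (Computable.const true) h).of_eq ?_
  intro a
  induction b a with
  | zero => simp
  | succ n ih =>
    show (_ && _) = _
    rw [ih]
    rw [Bool.eq_iff_iff]
    simp only [Bool.and_eq_true, decide_eq_true_eq]
    constructor
    · rintro ⟨h1, h2⟩ i hi
      rcases Nat.lt_succ_iff_lt_or_eq.1 hi with h | h
      · exact h1 i h
      · rw [h]; exact h2
    · intro h
      exact ⟨fun i hi => h i (by omega), h n (by omega)⟩

lemma computable_nat_pow : Computable₂ (fun a b : ℕ => a ^ b) := by
  have : Primrec₂ (fun a b : ℕ => a ^ b) := by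
    rw [← Primrec₂.unpaired']
    exact Nat.Primrec.pow
  exact this.to_comp

lemma computable_two_pow {f : α → ℕ} (hf : Computable f) : Computable (fun a => 2 ^ f a) :=
  computable_nat_pow.comp (Computable.const 2) hf

end closure

/-- list of all strings of length `s` -/
def allS : ℕ → List (List Bool)
  | 0 => [[]]
  | (s+1) => (allS s).map (List.cons false) ++ (allS s).map (List.cons true)

lemma allS_length (s : ℕ) : (allS s).length = 2 ^ s := by
  induction s with
  | zero => rfl
  | succ n ih => simp [allS, ih, pow_succ]; ring

lemma primrec_allS : Primrec allS := by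
  have h : Primrec₂ (fun (_ : ℕ) (l : List (List Bool)) =>
      l.map (List.cons false) ++ l.map (List.cons true)) := by
    refine Primrec.list_append.comp₂ ?_ ?_
    · exact Primrec.list_map Primrec.snd
        (Primrec.list_cons.comp (Primrec.const false) Primrec.snd).to₂
    · exact Primrec.list_map Primrec.snd
        (Primrec.list_cons.comp (Primrec.const true) Primrec.snd).to₂
  refine (Primrec.nat_rec₁ [[]] h).of_eq ?_
  intro n
  induction n with
  | zero => rfl
  | succ n ih => simp only [allS]; rw [← ih]

/-- number of strings of length `s` satisfying `p` -/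
def cnt (p : List Bool → Bool) (s : ℕ) : ℕ :=
  ∑ i ∈ Finset.range (2 ^ s), if p ((allS s).getD i []) then 1 else 0

lemma sum_getD_countP (l : List (List Bool)) (p : List Bool → Bool) :
    ∑ i ∈ Finset.range l.length, (if p (l.getD i []) then 1 else 0) = l.countP p := by
  induction l with
  | nil => simp
  | cons a l ih =>
    rw [List.length_cons, Finset.sum_range_succ', List.countP_cons, ← ih]
    simp

lemma cnt_eq_countP (p : List Bool → Bool) (s : ℕ) : cnt p s = (allS s).countP p := by
  rw [cnt, ← allS_length, sum_getD_countP]

open Classical in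
lemma card_filter_ofFn (s : ℕ) (p : List Bool → Bool) :
    ((Finset.univ : Finset (Fin s → Bool)).filter (fun τ => p (List.ofFn τ) = true)).card =
      cnt p s := by
  rw [cnt_eq_countP]
  induction s generalizing p with
  | zero =>
    simp only [allS, List.countP_singleton]
    rw [Finset.univ_unique, Finset.filter_singleton]
    simp only [List.ofFn_zero]
    split_ifs <;> simp
  | succ n ih =>
    simp only [allS, List.countP_append, List.countP_map]
    rw [← ih, ← ih]
    rw [← Finset.card_filter_add_card_filter_not (fun τ : Fin (n+1) → Bool => τ 0 = false)]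
    congr 1
    · rw [Finset.filter_filter]
      refine Finset.card_bij' (fun τ _ => Fin.tail τ) (fun τ _ => Fin.cons false τ) ?_ ?_ ?_ ?_
      · intro τ hτ
        simp only [Finset.mem_filter, Finset.mem_univ, true_and, Function.comp] at hτ ⊢
        obtain ⟨h1, h2⟩ := hτ
        rw [List.ofFn_succ, h2] at h1
        exact h1
      · intro τ hτ
        simp only [Finset.mem_filter, Finset.mem_univ, true_and, Function.comp] at hτ ⊢
        rw [List.ofFn_succ]
        simpa using hτ
      · intro τ hτ
        simp only [Finset.mem_filter, Finset.mem_univ, true_and] at hτ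
        rw [← hτ.2]; exact Fin.cons_self_tail τ
      · intro τ _
        exact Fin.tail_cons _ _
    · rw [Finset.filter_filter]
      refine Finset.card_bij' (fun τ _ => Fin.tail τ) (fun τ _ => Fin.cons true τ) ?_ ?_ ?_ ?_
      · intro τ hτ
        simp only [Finset.mem_filter, Finset.mem_univ, true_and, Function.comp] at hτ ⊢
        obtain ⟨h1, h2⟩ := hτ
        rw [Bool.not_eq_false] at h2
        rw [List.ofFn_succ, h2] at h1
        exact h1
      · intro τ hτ
        simp only [Finset.mem_filter, Finset.mem_univ, true_and, Function.comp] at hτ ⊢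
        rw [List.ofFn_succ]
        simpa using hτ
      · intro τ hτ
        simp only [Finset.mem_filter, Finset.mem_univ, true_and, Bool.not_eq_false] at hτ
        rw [← hτ.2]; exact Fin.cons_self_tail τ
      · intro τ _
        exact Fin.tail_cons _ _

lemma computable_cnt {α : Type*} [Primcodable α] {p : α → List Bool → Bool} {s : α → ℕ}
    (hp : Computable₂ p) (hs : Computable s) : Computable (fun a => cnt (p a) (s a)) := by
  unfold cnt
  refine computable_bsum (f := fun a i => if p a ((allS (s a)).getD i []) then 1 else 0) ?_
    (computable_two_pow hs)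
  have h1 : Computable₂ (fun (a : α) (i : ℕ) => (allS (s a)).getD i []) :=
    (Primrec.list_getD []).to_comp.comp₂ ((primrec_allS.to_comp.comp (hs.comp Computable.fst)).to₂)
      Computable.snd.to₂
  have h2 : Computable₂ (fun (a : α) (i : ℕ) => p a ((allS (s a)).getD i [])) :=
    hp.comp₂ Computable.fst.to₂ h1
  have h3 : Computable (fun b : Bool => if b then 1 else 0) :=
    (Primrec.dom_bool _).to_comp
  exact h3.comp₂ h2

open MeasureTheory ENNReal in
lemma mu_pred (s : ℕ) (p : List Bool → Bool) :
    mu {X | p (pre X s) = true} = (cnt p s : ℝ≥0∞) * (2⁻¹ : ℝ≥0∞) ^ s := by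
  rw [mu_clopen s (fun τ => p τ = true), ← card_filter_ofFn]
  congr!

end Pool.Agent.MP_1b0fb5_lc
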