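import Mathlib

set_option autoImplicit false

namespace Pool.Agent.MP_1b0fb5_lc

open Filter

/-- number of disagreements below `n` -/
def dis (X Y : ℕ → Bool) (n : ℕ) : ℕ := ((Finset.range n).filter (fun i => X i ≠ Y i)).card

lemma dis_le (X Y : ℕ → Bool) (n : ℕ) : dis X Y n ≤ n := by
  unfold dis
  exact (Finset.card_filter_le _ _).trans (by simp)

/-- upper density of the disagreement set -/
noncomputable def dlt (X Y : ℕ → Bool) : ℝ :=
  limsup (fun n : ℕ => (((Finset.range n).filter (fun i => X i ≠ Y i)).card : ℝ) / (n : ℝ)) atTop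

lemma ratio_nonneg (X Y : ℕ → Bool) (n : ℕ) : 0 ≤ (dis X Y n : ℝ) / n := by positivity

lemma ratio_le_one (X Y : ℕ → Bool) (n : ℕ) : (dis X Y n : ℝ) / n ≤ 1 := by
  rcases Nat.eq_zero_or_pos n with h | h
  · subst h; simp
  · rw [div_le_one (by exact_mod_cast h)]
    exact_mod_cast dis_le X Y n

lemma bdd_above (X Y : ℕ → Bool) :
    IsBoundedUnder (· ≤ ·) atTop (fun n : ℕ => (dis X Y n : ℝ) / n) :=
  isBoundedUnder_of ⟨1, ratio_le_one X Y⟩

lemma bdd_below (X Y : ℕ → Bool) :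
    IsCoboundedUnder (· ≤ ·) atTop (fun n : ℕ => (dis X Y n : ℝ) / n) :=
  (isBoundedUnder_of ⟨0, ratio_nonneg X Y⟩ :
    IsBoundedUnder (· ≥ ·) atTop (fun n : ℕ => (dis X Y n : ℝ) / n)).isCoboundedUnder_le

lemma dlt_le_of {X Y : ℕ → Bool} {r : ℝ}
    (h : ∀ ε > 0, ∀ᶠ n : ℕ in atTop, (dis X Y n : ℝ) / n ≤ r + ε) : dlt X Y ≤ r := by
  apply le_of_forall_pos_le_add
  intro ε hε
  exact limsup_le_of_le (bdd_below X Y) (h ε hε)

lemma dlt_nonneg (X Y : ℕ → Bool) : 0 ≤ dlt X Y := by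
  refine le_limsup_of_frequently_le ?_ (bdd_above X Y)
  exact Frequently.of_forall (ratio_nonneg X Y)

lemma dlt_le_one (X Y : ℕ → Bool) : dlt X Y ≤ 1 :=
  limsup_le_of_le (bdd_below X Y) (Eventually.of_forall (ratio_le_one X Y))

lemma tendsto_sqrt_div : Tendsto (fun n : ℕ => ((Nat.sqrt n : ℝ) + 1) / n) atTop (nhds 0) := by
  have h1 : Tendsto (fun n : ℕ => 2 / Real.sqrt (n : ℝ)) atTop (nhds 0) := by
    refine Tendsto.div_atTop tendsto_const_nhds ?_
    exact Real.tendsto_sqrt_atTop.comp tendsto_natCast_atTop_atTop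
  refine tendsto_of_tendsto_of_tendsto_of_le_of_le' tendsto_const_nhds h1 ?_ ?_
  · exact Eventually.of_forall fun n => by positivity
  · filter_upwards [eventually_ge_atTop 1] with n hn
    have hn' : (1 : ℝ) ≤ n := by exact_mod_cast hn
    have hs : (1 : ℝ) ≤ Real.sqrt n := by
      rw [Real.one_le_sqrt]; exact hn'
    have h2 : (Nat.sqrt n : ℝ) ≤ Real.sqrt n := Real.nat_sqrt_le_real_sqrt
    have h3 : (Nat.sqrt n : ℝ) + 1 ≤ 2 * Real.sqrt n := by linarith
    have hpos : 0 < Real.sqrt n := by linarith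
    rw [div_le_div_iff₀ (by linarith) hpos]
    calc ((Nat.sqrt n : ℝ) + 1) * Real.sqrt n ≤ (2 * Real.sqrt n) * Real.sqrt n := by gcongr
      _ = 2 * n := by rw [mul_assoc, Real.mul_self_sqrt (by linarith)]

lemma dlt_le_dlt {X Y X' Y' : ℕ → Bool} (h : ∀ n, dis X Y n ≤ dis X' Y' n + (Nat.sqrt n + 1)) :
    dlt X Y ≤ dlt X' Y' := by
  apply dlt_le_of
  intro ε hε
  have h1 : ∀ᶠ n : ℕ in atTop, (dis X' Y' n : ℝ) / n < dlt X' Y' + ε / 2 :=
    eventually_lt_of_limsup_lt (by show dlt X' Y' < _; linarith) (bdd_above X' Y')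
  have h2 := tendsto_sqrt_div.eventually (gt_mem_nhds (half_pos hε))
  filter_upwards [h1, h2] with n h1 h2
  have h3 : (dis X Y n : ℝ) / n ≤ (dis X' Y' n : ℝ) / n + ((Nat.sqrt n : ℝ) + 1) / n := by
    rw [← add_div]
    gcongr
    exact_mod_cast h n
  linarith

lemma dis_succ_block (X Y : ℕ → Bool) (k : ℕ) :
    dis X Y (2 ^ (k + 1)) = dis X Y (2 ^ k) +
      ((Finset.range (2 ^ k)).filter (fun i => X (2 ^ k + i) ≠ Y (2 ^ k + i))).card := by
  unfold dis
  have hu : Finset.range (2 ^ (k + 1)) = Finset.range (2 ^ k) ∪ Finset.Ico (2 ^ k) (2 ^ k + 2 ^ k) := by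
    ext i
    simp only [Finset.mem_union, Finset.mem_range, Finset.mem_Ico, pow_succ]
    omega
  rw [hu, Finset.filter_union, Finset.card_union_of_disjoint]
  · congr 1
    refine (Finset.card_bij (fun i _ => 2 ^ k + i) ?_ ?_ ?_).symm
    · intro i hi
      simp only [Finset.mem_filter, Finset.mem_Ico, Finset.mem_range] at hi ⊢
      exact ⟨by omega, hi.2⟩
    · intro a _ b _ hab
      omega
    · intro b hb
      simp only [Finset.mem_filter, Finset.mem_Ico] at hb
      refine ⟨b - 2 ^ k, ?_, by omega⟩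
      simp only [Finset.mem_filter, Finset.mem_range]
      rw [show 2 ^ k + (b - 2 ^ k) = b by omega]
      exact ⟨by omega, hb.2⟩
  · apply Finset.disjoint_filter_filter
    rw [Finset.disjoint_left]
    intro a ha hb
    rw [Finset.mem_range] at ha
    rw [Finset.mem_Ico] at hb
    omega

lemma dis_mono (X Y : ℕ → Bool) {m n : ℕ} (h : m ≤ n) : dis X Y m ≤ dis X Y n := by
  unfold dis
  exact Finset.card_le_card (Finset.filter_subset_filter _ (Finset.range_mono h))

lemma dis_le_add (X Y : ℕ → Bool) (m n : ℕ) (h : m ≤ n) : dis X Y n ≤ dis X Y m + (n - m) := by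
  induction n, h using Nat.le_induction with
  | base => simp
  | succ n hn ih =>
    have h1 : dis X Y (n+1) ≤ dis X Y n + 1 := by
      unfold dis
      rw [Finset.range_add_one, Finset.filter_insert]
      split_ifs
      · exact Finset.card_insert_le _ _
      · omega
    omega

lemma dlt_of_blocks {X Y : ℕ → Bool} {k1 : ℕ}
    (h : ∀ k, k1 ≤ k → 2 ^ k ≤ 4 * ((Finset.range (2 ^ k)).filter
      (fun i => X (2 ^ k + i) = Y (2 ^ k + i))).card) : dlt X Y ≤ 6 / 7 := by
  have h1 : ∀ k, k1 ≤ k → 4 * ((Finset.range (2 ^ k)).filter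
      (fun i => X (2 ^ k + i) ≠ Y (2 ^ k + i))).card ≤ 3 * 2 ^ k := by
    intro k hk
    have h2 := Finset.card_filter_add_card_filter_not (s := Finset.range (2 ^ k))
      (fun i => X (2 ^ k + i) = Y (2 ^ k + i))
    rw [Finset.card_range] at h2
    have h3 := h k hk
    simp only [ne_eq]
    omega
  have h2 : ∀ k, k1 ≤ k → 4 * dis X Y (2 ^ k) ≤ 3 * 2 ^ k + 4 * 2 ^ k1 := by
    intro k hk
    induction k, hk using Nat.le_induction with
    | base => have := dis_le X Y (2 ^ k1); omega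
    | succ k hk ih =>
      rw [dis_succ_block]
      have := h1 k hk
      rw [pow_succ]
      omega
  have h3 : ∀ n, 2 ^ k1 ≤ n → 7 * dis X Y n ≤ 6 * n + 7 * 2 ^ k1 := by
    intro n hn
    have hn0 : n ≠ 0 := by
      have : 0 < 2 ^ k1 := by positivity
      omega
    set k := Nat.log 2 n with hk
    have hk1 : 2 ^ k ≤ n := Nat.pow_log_le_self 2 hn0
    have hk2 : n < 2 ^ (k + 1) := Nat.lt_pow_succ_log_self (by norm_num) n
    have hk3 : k1 ≤ k := Nat.le_log_of_pow_le (by norm_num) hn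
    have e1 := dis_le_add X Y (2 ^ k) n hk1
    have e2 := dis_mono X Y hk2.le
    have e3 := h2 k hk3
    have e4 := h2 (k+1) (by omega)
    rw [pow_succ] at e2 e4 hk2
    omega
  apply dlt_le_of
  intro ε hε
  have h4 : Tendsto (fun n : ℕ => (2 ^ k1 : ℝ) / n) atTop (nhds 0) :=
    tendsto_const_nhds.div_atTop tendsto_natCast_atTop_atTop
  filter_upwards [h4.eventually (gt_mem_nhds hε), eventually_ge_atTop (2 ^ k1)] with n hn1 hn2
  have hnpos : (0 : ℝ) < n := by
    have : 0 < 2 ^ k1 := by positivity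
    exact_mod_cast lt_of_lt_of_le this hn2
  have h5 : (7 : ℝ) * dis X Y n ≤ 6 * n + 7 * 2 ^ k1 := by exact_mod_cast h3 n hn2
  have h6 : (dis X Y n : ℝ) / n ≤ 6 / 7 + 2 ^ k1 / n := by
    rw [div_add_div _ _ (by norm_num) hnpos.ne', div_le_div_iff₀ hnpos (by positivity)]
    nlinarith
  linarith

end Pool.Agent.MP_1b0fb5_lc
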