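import Pool.Agent.MP_1b0fb5_lc.Gen

set_option autoImplicit false

namespace Pool.Agent.MP_1b0fb5_lc

/-- Hausdorff type distance of degrees -/
noncomputable def hd (X Y : ℕ → Bool) : ℝ := max
      (sSup {r : ℝ | ∃ X' : ℕ → Bool, (red X' X ∧ red X X') ∧
        r = sInf {s : ℝ | ∃ Y' : ℕ → Bool, (red Y' Y ∧ red Y Y') ∧ s = dlt X' Y'}})
      (sSup {r : ℝ | ∃ Y' : ℕ → Bool, (red Y' Y ∧ red Y Y') ∧
        r = sInf {s : ℝ | ∃ X' : ℕ → Bool, (red X' X ∧ red X X') ∧ s = dlt X' Y'}})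

lemma bddBelow_left (X Y' : ℕ → Bool) :
    BddBelow {s : ℝ | ∃ X' : ℕ → Bool, (red X' X ∧ red X X') ∧ s = dlt X' Y'} :=
  ⟨0, by rintro _ ⟨X', _, rfl⟩; exact dlt_nonneg _ _⟩

lemma bddBelow_right (Y X' : ℕ → Bool) :
    BddBelow {s : ℝ | ∃ Y' : ℕ → Bool, (red Y' Y ∧ red Y Y') ∧ s = dlt X' Y'} :=
  ⟨0, by rintro _ ⟨X', _, rfl⟩; exact dlt_nonneg _ _⟩

/-- For `b` as constructed, every `c` has distance at most `max (6/7) (hd (evn b) c)` from `b`. -/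
theorem hd_le {b : ℕ → Bool} (hb : ∀ F, IsFun F → b ∈ tgt F) {a : ℕ → Bool} (ha : red a b)
    (c : ℕ → Bool) : hd b c ≤ max (6 / 7) (hd a c) := by
  apply max_le
  · refine le_trans ?_ (le_max_left _ _)
    refine csSup_le ⟨_, b, ⟨red_refl b, red_refl b⟩, rfl⟩ ?_
    rintro _ ⟨X', ⟨hX', _⟩, rfl⟩
    obtain ⟨C, hC, hd⟩ := close_computable hb hX'
    refine (csInf_le (bddBelow_right c X') ⟨cod c C, ⟨?_, red_of_cod c C⟩, rfl⟩).trans ?_
    · exact red_cod (red_refl c) (red_computable hC c)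
    · exact (dlt_le_dlt (fun n => dis_cod_right c C X' n)).trans hd
  · refine le_trans ?_ (le_max_right _ _)
    refine le_trans ?_ (le_max_right _ _)
    refine csSup_le ⟨_, c, ⟨red_refl c, red_refl c⟩, rfl⟩ ?_
    rintro _ ⟨Y', hY', rfl⟩
    refine le_trans ?_ (le_csSup ?_ ⟨Y', hY', rfl⟩)
    · refine le_csInf ⟨_, a, ⟨red_refl a, red_refl a⟩, rfl⟩ ?_
      rintro _ ⟨X', ⟨hX', _⟩, rfl⟩
      refine (csInf_le (bddBelow_left b Y') ⟨cod b X', ⟨?_, red_of_cod b X'⟩, rfl⟩).trans ?_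
      · exact red_cod (red_refl b) (red_trans hX' ha)
      · exact dlt_le_dlt (fun n => dis_cod_left b X' Y' n)
    · refine ⟨1, ?_⟩
      rintro _ ⟨Y'', _, rfl⟩
      exact (csInf_le (bddBelow_left a Y'') ⟨a, ⟨red_refl a, red_refl a⟩, rfl⟩).trans
        (dlt_le_one _ _)

lemma final_contra {b : ℕ → Bool} (hb : ∀ F, IsFun F → b ∈ tgt F) {c : ℕ → Bool}
    (h1 : hd (evn b) c = 1 / 2) (h2 : hd b c = 1) : False := by
  have := hd_le hb (red_evn b) c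
  rw [h1, h2] at this
  norm_num at this

end Pool.Agent.MP_1b0fb5_lc
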