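import Pool.Agent.MP_1b0fb5_lc.Use

set_option autoImplicit false

namespace Pool.Agent.MP_1b0fb5_lc

open MeasureTheory Set
open scoped ENNReal

/-- Open set of all sequences having a prefix enumerated by `g`. -/
def opn (g : ℕ → Option (List Bool)) : Set (ℕ → Bool) :=
  {X | ∃ j σ, g j = some σ ∧ σ = pre X σ.length}

/-- does the `j`-th string of `g` sit below `τ`? -/
def hitb (g : ℕ → Option (List Bool)) (j : ℕ) (τ : List Bool) : Bool :=
  match g j with
  | none => false
  | some σ => decide (τ.take σ.length = σ)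

lemma hitb_iff {g : ℕ → Option (List Bool)} {j : ℕ} {τ : List Bool} :
    hitb g j τ = true ↔ ∃ σ, g j = some σ ∧ σ <+: τ := by
  unfold hitb
  cases h : g j with
  | none => simp
  | some σ =>
    simp only [decide_eq_true_eq, Option.some.injEq, exists_eq_left']
    rw [List.prefix_iff_eq_take]
    exact eq_comm

/-- `τ` is not yet excluded at stage `s` -/
def okb (g : ℕ → Option (List Bool)) (s : ℕ) (τ : List Bool) : Bool :=
  decide (∀ j < s, (!(hitb g j τ)) = true)

lemma computable_okb {g : ℕ → Option (List Bool)} (hg : Computable g) :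
    Computable₂ (okb g) := by
  unfold okb
  refine computable_ball (α := ℕ × List Bool) (p := fun q j => !(hitb g j q.2)) ?_ Computable.fst
  have h0 : Computable₂ (fun (q : ℕ × List Bool) (j : ℕ) => hitb g j q.2) := by
    have h1 : Computable (fun p : (ℕ × List Bool) × ℕ => g p.2) := hg.comp Computable.snd
    have h2 : Computable₂ (fun (p : (ℕ × List Bool) × ℕ) (σ : List Bool) =>
        decide (p.1.2.take σ.length = σ)) := by
      have : Primrec₂ (fun (p : (ℕ × List Bool) × ℕ) (σ : List Bool) =>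
          decide (p.1.2.take σ.length = σ)) := by
        have h3 : PrimrecRel (fun (a b : List Bool) => a = b) := Primrec.eq
        refine (h3.comp ?_ Primrec.snd).decide
        exact Primrec.list_take.comp (Primrec.list_length.comp Primrec.snd)
          (Primrec.snd.comp (Primrec.fst.comp Primrec.fst))
      exact this.to_comp
    refine (Computable.option_casesOn h1 (Computable.const false) h2).of_eq ?_
    rintro ⟨⟨a, τ⟩, j⟩
    simp only [hitb]
    cases g j <;> rfl
  exact (Primrec.not.to_comp.comp h0)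

/-- stage approximation -/
def stg (g : ℕ → Option (List Bool)) (s : ℕ) : Set (ℕ → Bool) := {X | okb g s (pre X s) = true}

lemma mem_stg {g : ℕ → Option (List Bool)} {s : ℕ} {X : ℕ → Bool} :
    X ∈ stg g s ↔ ∀ j < s, ∀ σ, g j = some σ → ¬ σ <+: pre X s := by
  simp only [stg, okb, Set.mem_ofPred_eq, decide_eq_true_eq, Bool.not_eq_true', ← Bool.not_eq_true,
    hitb_iff, not_exists, not_and]

lemma stg_anti (g : ℕ → Option (List Bool)) {s t : ℕ} (h : s ≤ t) : stg g t ⊆ stg g s := by
  intro X hX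
  rw [mem_stg] at hX ⊢
  intro j hj σ hσ hpre
  exact hX j (lt_of_lt_of_le hj h) σ hσ (hpre.trans (pre_prefix X h))

lemma iInter_stg (g : ℕ → Option (List Bool)) : ⋂ s, stg g s = (opn g)ᶜ := by
  ext X
  simp only [Set.mem_iInter, mem_stg, Set.mem_compl_iff, opn, Set.mem_ofPred_eq, not_exists, not_and]
  constructor
  · intro h j σ hσ hX
    refine h (max (j+1) σ.length) j (by simp) σ hσ ?_
    rw [prefix_pre_iff]
    exact ⟨le_max_right _ _, hX⟩
  · intro h s j _ σ hσ hpre
    rw [prefix_pre_iff] at hpre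
    exact h j σ hσ hpre.2

lemma measurable_stg (g : ℕ → Option (List Bool)) (s : ℕ) : MeasurableSet (stg g s) :=
  measurable_clopen s (fun τ => okb g s τ = true)

lemma isClosed_stg (g : ℕ → Option (List Bool)) (s : ℕ) : IsClosed (stg g s) :=
  (isClopen_clopen s (fun τ => okb g s τ = true)).isClosed

lemma isOpen_opn (g : ℕ → Option (List Bool)) : IsOpen (opn g) := by
  rw [← compl_compl (opn g), ← iInter_stg, isOpen_compl_iff]
  exact isClosed_iInter (isClosed_stg g)

lemma measurable_opn (g : ℕ → Option (List Bool)) : MeasurableSet (opn g) := by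
  rw [← compl_compl (opn g), ← iInter_stg]
  exact (MeasurableSet.iInter (measurable_stg g)).compl

/-- effectively closed sets -/
def IsNice (P : Set (ℕ → Bool)) : Prop := ∃ g : ℕ → Option (List Bool), Computable g ∧ P = (opn g)ᶜ

lemma IsNice.isClosed {P : Set (ℕ → Bool)} (h : IsNice P) : IsClosed P := by
  obtain ⟨g, _, rfl⟩ := h
  exact (isOpen_opn g).isClosed_compl

lemma IsNice.measurable {P : Set (ℕ → Bool)} (h : IsNice P) : MeasurableSet P := by
  obtain ⟨g, _, rfl⟩ := h
  exact (measurable_opn g).compl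

lemma isNice_univ : IsNice Set.univ := by
  refine ⟨fun _ => none, Computable.const none, ?_⟩
  simp [opn]

/-- interleaving of two enumerations -/
def mrg (g h : ℕ → Option (List Bool)) (n : ℕ) : Option (List Bool) :=
  cond n.bodd (h n.div2) (g n.div2)

lemma computable_mrg {g h : ℕ → Option (List Bool)} (hg : Computable g) (hh : Computable h) :
    Computable (mrg g h) :=
  Computable.cond Computable.nat_bodd (hh.comp Computable.nat_div2) (hg.comp Computable.nat_div2)

lemma opn_mrg (g h : ℕ → Option (List Bool)) : opn (mrg g h) = opn g ∪ opn h := by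
  ext X
  simp only [opn, mrg, Set.mem_ofPred_eq, Set.mem_union]
  constructor
  · rintro ⟨j, σ, hj, hσ⟩
    cases hb : j.bodd with
    | false => rw [hb] at hj; exact Or.inl ⟨_, σ, hj, hσ⟩
    | true => rw [hb] at hj; exact Or.inr ⟨_, σ, hj, hσ⟩
  · rintro (⟨j, σ, hj, hσ⟩ | ⟨j, σ, hj, hσ⟩)
    · refine ⟨2 * j, σ, ?_, hσ⟩
      have : (2 * j).bodd = false := by simp
      rw [this]
      have h2 : (2 * j).div2 = j := by rw [Nat.div2_val]; omega
      rw [h2]; exact hj
    · refine ⟨2 * j + 1, σ, ?_, hσ⟩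
      have : (2 * j + 1).bodd = true := by simp
      rw [this]
      have h2 : (2 * j + 1).div2 = j := by rw [Nat.div2_val]; omega
      rw [h2]; exact hj

lemma IsNice.diff {P : Set (ℕ → Bool)} (h : IsNice P) {g : ℕ → Option (List Bool)}
    (hg : Computable g) : IsNice (P \ opn g) := by
  obtain ⟨g', hg', rfl⟩ := h
  refine ⟨mrg g' g, computable_mrg hg' hg, ?_⟩
  rw [opn_mrg, Set.compl_union]; rfl

/-- `R` is dense for forcing with effectively closed sets of positive measure -/
def Dns (R : Set (ℕ → Bool)) : Prop :=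
  ∀ P, IsNice P → 0 < mu P → ∃ Q, IsNice Q ∧ 0 < mu Q ∧ Q ⊆ P ∧ Q ⊆ R

theorem exists_generic (S : Set (Set (ℕ → Bool))) (hc : S.Countable) (hd : ∀ R ∈ S, Dns R) :
    ∃ X, ∀ R ∈ S, X ∈ R := by
  rcases S.eq_empty_or_nonempty with h | hne
  · exact ⟨fun _ => false, by simp [h]⟩
  obtain ⟨e, he⟩ := hc.exists_eq_range hne
  have hR : ∀ n, Dns (e n) := fun n => hd _ (by rw [he]; exact Set.mem_range_self n)
  let C := {P : Set (ℕ → Bool) // IsNice P ∧ 0 < mu P}
  have step : ∀ (n : ℕ) (P : C), ∃ Q : C, Q.1 ⊆ P.1 ∧ Q.1 ⊆ e n := by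
    rintro n ⟨P, hP, hP'⟩
    obtain ⟨Q, hQ, hQ', h1, h2⟩ := hR n P hP hP'
    exact ⟨⟨Q, hQ, hQ'⟩, h1, h2⟩
  choose nxt hn1 hn2 using step
  let T : ℕ → C := fun n => Nat.rec ⟨Set.univ, isNice_univ, by simp⟩ (fun n P => nxt n P) n
  have hT : ∀ n, (T (n+1)).1 ⊆ (T n).1 := fun n => hn1 n (T n)
  have hT2 : ∀ n, (T (n+1)).1 ⊆ e n := fun n => hn2 n (T n)
  have hne' : (⋂ n, (T n).1).Nonempty := by
    apply IsCompact.nonempty_iInter_of_sequence_nonempty_isCompact_isClosed
    · exact hT
    · intro n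
      by_contra hcon
      rw [Set.not_nonempty_iff_eq_empty] at hcon
      have := (T n).2.2
      rw [hcon] at this
      simp at this
    · exact (T 0).2.1.isClosed.isCompact
    · exact fun n => (T n).2.1.isClosed
  obtain ⟨X, hX⟩ := hne'
  refine ⟨X, ?_⟩
  rw [he]
  rintro _ ⟨n, rfl⟩
  exact hT2 n (Set.mem_iInter.1 hX (n+1))

/-- A null intersection of effectively open sets can be avoided. -/
lemma dns_null {O : ℕ → Set (ℕ → Bool)}
    (hO : ∀ n, ∃ g : ℕ → Option (List Bool), Computable g ∧ O n = opn g)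
    (hnull : mu (⋂ n, O n) = 0) : Dns (⋂ n, O n)ᶜ := by
  intro P hP hpos
  have h1 : 0 < mu (P \ ⋂ n, O n) := by
    rw [measure_sdiff_null hnull]; exact hpos
  have h2 : (P \ ⋂ n, O n) = ⋃ n, (P \ O n) := by
    rw [Set.sdiff_iInter]
  rw [h2] at h1
  have h3 : ∃ n, 0 < mu (P \ O n) := by
    by_contra hcon
    simp only [not_exists, not_lt, nonpos_iff_eq_zero] at hcon
    rw [measure_iUnion_null hcon] at h1
    exact lt_irrefl _ h1
  obtain ⟨n, hn⟩ := h3
  obtain ⟨g, hg, hgo⟩ := hO n
  refine ⟨P \ O n, ?_, hn, Set.sdiff_subset, ?_⟩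
  · rw [hgo]; exact hP.diff hg
  · intro X hX h
    exact hX.2 (Set.mem_iInter.1 h n)

end Pool.Agent.MP_1b0fb5_lc
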