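import Pool.Agent.MP_1b0fb5_lc.MainD
import Pool.Agent.MP_1b0fb5_lc.Dens

set_option autoImplicit false

namespace Pool.Agent.MP_1b0fb5_lc

open MeasureTheory Set Encodable
open scoped ENNReal

lemma countable_computable {α β : Type*} [Primcodable α] [Primcodable β] :
    {f : α → β | Computable f}.Countable := by
  have h1 : (Set.range Nat.Partrec.Code.eval).Countable := Set.countable_range _
  let Φ : (α → β) → (ℕ →. ℕ) := fun f n =>
    Part.bind (decode (α := α) n) fun a => (Part.some (f a)).map encode
  have hmaps : Set.MapsTo Φ {f : α → β | Computable f} (Set.range Nat.Partrec.Code.eval) := by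
    intro f hf
    obtain ⟨c, hc⟩ := Nat.Partrec.Code.exists_code.1 (show Nat.Partrec (Φ f) from hf)
    exact ⟨c, hc⟩
  have hinj : Set.InjOn Φ {f : α → β | Computable f} := by
    intro f _ g _ hfg
    funext a
    have := congrFun hfg (encode a)
    simp only [Φ, encodek, Part.coe_some, Part.bind_some, Part.map_some, Part.some_inj] at this
    exact encode_injective this
  exact hmaps.countable_of_injOn hinj h1

lemma countable_computable₂ {α β γ : Type*} [Primcodable α] [Primcodable β] [Primcodable γ] :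
    {f : α → β → γ | Computable₂ f}.Countable := by
  have hmaps : Set.MapsTo (fun (f : α → β → γ) => fun p : α × β => f p.1 p.2)
      {f : α → β → γ | Computable₂ f} {f : α × β → γ | Computable f} := fun f hf => hf
  refine hmaps.countable_of_injOn ?_ countable_computable
  intro f _ g _ h
  funext a b
  exact congrFun h (a, b)

open Classical in
/-- the counterexample -/
theorem exists_b : ∃ b : ℕ → Bool,
    (∀ F, IsFun F → b ∈ tgt F) ∧
    (∀ F, IsFun F → ∃ n, ¬ ev F (evn b) n (b n).toNat) ∧
    (∀ f, IsTest f → ∃ n, b ∉ opn (f n)) ∧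
    (∀ f, IsTest f → ∃ n, evn b ∉ opn (f n)) := by
  have cF : {F : List Bool → ℕ → Option ℕ | IsFun F}.Countable :=
    countable_computable₂.mono (fun F hF => hF.comp)
  have cT : {f : ℕ → ℕ → Option (List Bool) | IsTest f}.Countable :=
    countable_computable₂.mono (fun F hF => hF.1)
  obtain ⟨X, hX⟩ := exists_generic
    ((tgt '' {F | IsFun F} ∪ (fun F => (⋂ n, selfc F n)ᶜ) '' {F | IsFun F}) ∪
    ((fun f => (⋂ n, opn (f n))ᶜ) '' {f | IsTest f} ∪
      (fun f => (⋂ n, evn ⁻¹' (opn (f n)))ᶜ) '' {f | IsTest f}))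
    (((cF.image _).union (cF.image _)).union ((cT.image _).union (cT.image _))) (by
      rintro R ((⟨F, hF, rfl⟩ | ⟨F, hF, rfl⟩) | (⟨f, hf, rfl⟩ | ⟨f, hf, rfl⟩))
      · exact dns_tgt hF
      · exact dns_selfc hF
      · exact dns_test hf
      · exact dns_test_evn hf)
  refine ⟨X, ?_, ?_, ?_, ?_⟩
  · intro F hF
    exact hX _ (Or.inl (Or.inl ⟨F, hF, rfl⟩))
  · intro F hF
    have := hX _ (Or.inl (Or.inr ⟨F, hF, rfl⟩))
    simpa [selfc] using this
  · intro f hf
    have := hX _ (Or.inr (Or.inl ⟨f, hf, rfl⟩))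
    simpa using this
  · intro f hf
    have := hX _ (Or.inr (Or.inr ⟨f, hf, rfl⟩))
    simpa using this

/-! ### Turing reductions -/

/-- Turing reducibility of sequences -/
def red (X Y : ℕ → Bool) : Prop := Nat.RecursiveIn {orc Y} (orc X)

lemma red_iff (X Y : ℕ → Bool) :
    TuringReducible (fun n => Part.some (X n).toNat) (fun n => Part.some (Y n).toNat) ↔ red X Y :=
  RecursiveIn.iff_nat

lemma red_refl (X : ℕ → Bool) : red X X := .oracle _ rfl

lemma red_trans {X Y Z : ℕ → Bool} (h1 : red X Y) (h2 : red Y Z) : red X Z := by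
  refine Nat.RecursiveIn.subst h1 ?_
  intro g hg
  rw [Set.mem_singleton_iff] at hg
  rw [hg]; exact h2

lemma nat_computable {f : ℕ → ℕ} (hf : Computable f) (O : Set (ℕ →. ℕ)) :
    Nat.RecursiveIn O (fun n => Part.some (f n)) := by
  have : Partrec (fun n => Part.some (f n)) := hf.partrec
  exact (Partrec.nat_iff.1 this).recursiveIn

lemma red_computable {C : ℕ → Bool} (hC : Computable C) (Y : ℕ → Bool) : red C Y :=
  nat_computable ((Primrec.dom_bool Bool.toNat).to_comp.comp hC) _

/-- `X` composed with a computable function -/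
lemma red_comp {X Y : ℕ → Bool} (h : red X Y) {p : ℕ → ℕ} (hp : Computable p) :
    red (fun n => X (p n)) Y := by
  have := Nat.RecursiveIn.comp h (nat_computable hp {orc Y})
  refine Nat.RecursiveIn.of_eq this ?_
  intro n
  show (Part.some (p n)).bind (orc X) = _
  simp [orc]

/-- if-then-else along a computable predicate -/
lemma red_cond {X Z Y : ℕ → Bool} (h1 : red X Y) (h2 : red Z Y) {q : ℕ → Bool}
    (hq : Computable q) : red (fun n => cond (q n) (X n) (Z n)) Y := by
  have hp := Nat.RecursiveIn.pair (nat_computable Computable.id {orc Y})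
    (Nat.RecursiveIn.pair h1 h2)
  have hc : Computable (fun m : ℕ => cond (q m.unpair.1) (m.unpair.2.unpair.1)
      (m.unpair.2.unpair.2)) := by
    have u1 : Computable (fun m : ℕ => m.unpair.1) := Computable.fst.comp Computable.unpair
    have u2 : Computable (fun m : ℕ => m.unpair.2) := Computable.snd.comp Computable.unpair
    exact Computable.cond (hq.comp u1) (u1.comp u2) (u2.comp u2)
  have := Nat.RecursiveIn.comp (nat_computable hc {orc Y}) hp
  refine Nat.RecursiveIn.of_eq this ?_
  intro n
  simp only [orc, id]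
  cases hb : q n <;> simp [Seq.seq, hb]

/-- code `b` into the squares of `X` -/
def cod (b X : ℕ → Bool) : ℕ → Bool :=
  fun m => cond (decide (Nat.sqrt m * Nat.sqrt m = m)) (b (Nat.sqrt m)) (X m)

lemma red_cod {b X Y : ℕ → Bool} (h1 : red b Y) (h2 : red X Y) : red (cod b X) Y := by
  refine red_cond (red_comp h1 Primrec.nat_sqrt.to_comp) h2 ?_
  have : Primrec (fun m : ℕ => decide (Nat.sqrt m * Nat.sqrt m = m)) :=
    (Primrec.eq.comp (Primrec.nat_mul.comp Primrec.nat_sqrt Primrec.nat_sqrt) Primrec.id).decide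
  exact this.to_comp

lemma red_of_cod (b X : ℕ → Bool) : red b (cod b X) := by
  have h := red_comp (red_refl (cod b X)) (p := fun n => n * n)
    (Primrec.nat_mul.to_comp.comp Computable.id Computable.id)
  have e : (fun n => cod b X (n * n)) = b := by
    funext n
    simp [cod, Nat.sqrt_eq]
  rwa [e] at h

lemma red_evn (X : ℕ → Bool) : red (evn X) X :=
  red_comp (red_refl X) (p := fun n => 2 * n) (Primrec.nat_mul.to_comp.comp
    (Computable.const 2) Computable.id)

lemma card_squares (n : ℕ) :
    ((Finset.range n).filter (fun m => Nat.sqrt m * Nat.sqrt m = m)).card ≤ Nat.sqrt n + 1 := by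
  have h : (Finset.range n).filter (fun m => Nat.sqrt m * Nat.sqrt m = m) ⊆
      (Finset.range (Nat.sqrt n + 1)).image (fun i => i * i) := by
    intro m hm
    rw [Finset.mem_filter, Finset.mem_range] at hm
    rw [Finset.mem_image]
    refine ⟨Nat.sqrt m, ?_, hm.2⟩
    rw [Finset.mem_range]
    have := Nat.sqrt_le_sqrt hm.1.le
    omega
  refine (Finset.card_le_card h).trans ?_
  refine Finset.card_image_le.trans ?_
  simp

lemma dis_cod_left (b X Y : ℕ → Bool) (n : ℕ) :
    dis (cod b X) Y n ≤ dis X Y n + (Nat.sqrt n + 1) := by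
  refine le_trans ?_ (Nat.add_le_add_left (card_squares n) _)
  unfold dis
  refine le_trans (Finset.card_le_card ?_) (Finset.card_union_le _ _)
  intro i hi
  rw [Finset.mem_filter] at hi
  rw [Finset.mem_union, Finset.mem_filter, Finset.mem_filter]
  by_cases h : Nat.sqrt i * Nat.sqrt i = i
  · exact Or.inr ⟨hi.1, h⟩
  · left
    refine ⟨hi.1, ?_⟩
    have h2 := hi.2
    simp only [cod, h, decide_false, cond_false] at h2
    exact h2

lemma dis_comm (X Y : ℕ → Bool) (n : ℕ) : dis X Y n = dis Y X n := by
  unfold dis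
  congr 1
  ext i
  simp [ne_comm]

lemma dis_cod_right (b X Y : ℕ → Bool) (n : ℕ) :
    dis Y (cod b X) n ≤ dis Y X n + (Nat.sqrt n + 1) := by
  rw [dis_comm, dis_comm Y X]
  exact dis_cod_left b X Y n

/-- Everything computable from `b` is `6/7`-close to a computable sequence. -/
lemma close_computable {b : ℕ → Bool} (hb : ∀ F, IsFun F → b ∈ tgt F) {X : ℕ → Bool}
    (hX : red X b) : ∃ C : ℕ → Bool, Computable C ∧ dlt X C ≤ 6 / 7 := by
  classical
  obtain ⟨F, hF, hev⟩ := use_principle b hX
  have hev' : ∀ n (c : Bool), ev F b n c.toNat ↔ X n = c := by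
    intro n c
    rw [← hev]
    simp only [orc, Part.mem_some_iff]
    constructor
    · intro h
      cases hc : c <;> cases hx : X n <;> rw [hc, hx] at h <;> simp at h
    · rintro rfl; rfl
  rcases hb F hF with ⟨n, hn⟩ | ⟨C, hC, k1, hk⟩
  · exfalso
    apply hn
    obtain ⟨s, hs⟩ := (hev' n (X n)).2 rfl
    refine ⟨s, ?_⟩
    simp only [dfb, hasv, Bool.or_eq_true, decide_eq_true_eq]
    cases hx : X n <;> rw [hx] at hs
    · exact Or.inl hs
    · exact Or.inr hs
  · refine ⟨C, hC, dlt_of_blocks (k1 := k1) ?_⟩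
    intro k hkk
    refine (hk k hkk).trans (Nat.mul_le_mul_left 4 ?_)
    apply Finset.card_le_card
    intro i hi
    rw [Finset.mem_filter] at hi ⊢
    exact ⟨hi.1, (hev' _ _).1 hi.2⟩

end Pool.Agent.MP_1b0fb5_lc
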