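import Pool.Agent.MP_1b0fb5_lc.Forcing
import Pool.Agent.MP_1b0fb5_lc.Chernoff

set_option autoImplicit false

namespace Pool.Agent.MP_1b0fb5_lc

open MeasureTheory Set Encodable
open scoped ENNReal

/-- the functional gives the bit `b` at `n` on the string `σ` -/
def hasv (F : List Bool → ℕ → Option ℕ) (σ : List Bool) (n : ℕ) (b : Bool) : Bool :=
  decide (F σ n = some b.toNat)

lemma computable_hasv {α : Type*} [Primcodable α] {F : List Bool → ℕ → Option ℕ}
    (hF : Computable₂ F) {σ : α → List Bool} {n : α → ℕ} {b : α → Bool}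
    (hσ : Computable σ) (hn : Computable n) (hb : Computable b) :
    Computable (fun a => hasv F (σ a) (n a) (b a)) := by
  have h1 : Computable (fun a => F (σ a) (n a)) := hF.comp hσ hn
  have h2 : Computable (fun a => (some (b a).toNat : Option ℕ)) :=
    Computable.option_some.comp ((Primrec.dom_bool Bool.toNat).to_comp.comp hb)
  have h3 : Computable₂ (fun (x y : Option ℕ) => decide (x = y)) := by
    have : Primrec₂ (fun (x y : Option ℕ) => decide (x = y)) := Primrec.eq.decide
    exact this.to_comp
  exact h3.comp h1 h2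

/-- number of agreements with `C` on the `k`-th block -/
def agr (F : List Bool → ℕ → Option ℕ) (k : ℕ) (C σ : List Bool) : ℕ :=
  ∑ i ∈ Finset.range (2 ^ k), if hasv F σ (2 ^ k + i) (C.getD i false) then 1 else 0

lemma computable_agr {α : Type*} [Primcodable α] {F : List Bool → ℕ → Option ℕ}
    (hF : Computable₂ F) {k : α → ℕ} {C σ : α → List Bool}
    (hk : Computable k) (hC : Computable C) (hσ : Computable σ) :
    Computable (fun a => agr F (k a) (C a) (σ a)) := by
  unfold agr
  refine computable_bsum
    (f := fun a i => if hasv F (σ a) (2 ^ (k a) + i) ((C a).getD i false) then 1 else 0) ?_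
    (computable_two_pow hk)
  have h3 : Computable (fun b : Bool => if b then 1 else 0) := (Primrec.dom_bool _).to_comp
  refine h3.comp (computable_hasv hF (hσ.comp Computable.fst) ?_ ?_)
  · exact Primrec.nat_add.to_comp.comp (computable_two_pow (hk.comp Computable.fst)) Computable.snd
  · exact (Primrec.list_getD false).to_comp.comp (hC.comp Computable.fst) Computable.snd

/-- a quarter of the bits agree -/
def goodb (F : List Bool → ℕ → Option ℕ) (k : ℕ) (C σ : List Bool) : Bool :=
  decide (2 ^ k ≤ 4 * agr F k C σ)

lemma computable_goodb {α : Type*} [Primcodable α] {F : List Bool → ℕ → Option ℕ}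
    (hF : Computable₂ F) {k : α → ℕ} {C σ : α → List Bool}
    (hk : Computable k) (hC : Computable C) (hσ : Computable σ) :
    Computable (fun a => goodb F (k a) (C a) (σ a)) := by
  have h : Computable₂ (fun (x y : ℕ) => decide (x ≤ y)) := by
    have : Primrec₂ (fun (x y : ℕ) => decide (x ≤ y)) := Primrec.nat_le.decide
    exact this.to_comp
  exact h.comp (computable_two_pow hk)
    (Primrec.nat_mul.to_comp.comp (Computable.const 4) (computable_agr hF hk hC hσ))

/-- alive at stage `s` but not (yet) good -/
def badb (g : ℕ → Option (List Bool)) (F : List Bool → ℕ → Option ℕ) (k s : ℕ) (C τ : List Bool) :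
    Bool := okb g s τ && !(goodb F k C τ)

lemma computable_badb {α : Type*} [Primcodable α] {g : ℕ → Option (List Bool)}
    {F : List Bool → ℕ → Option ℕ} (hg : Computable g)
    (hF : Computable₂ F) {k s : α → ℕ} {C σ : α → List Bool}
    (hk : Computable k) (hs : Computable s) (hC : Computable C) (hσ : Computable σ) :
    Computable (fun a => badb g F (k a) (s a) (C a) (σ a)) := by
  refine Primrec.and.to_comp.comp ?_ (Primrec.not.to_comp.comp (computable_goodb hF hk hC hσ))
  exact (computable_okb hg).comp hs hσ

/-- the effective measure test -/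
def tst (g : ℕ → Option (List Bool)) (F : List Bool → ℕ → Option ℕ) (k s : ℕ) (C : List Bool) :
    Bool := decide (cnt (badb g F k s C) s * 2 ^ k < 2 ^ s)

lemma computable_tst {α : Type*} [Primcodable α] {g : ℕ → Option (List Bool)}
    {F : List Bool → ℕ → Option ℕ} (hg : Computable g)
    (hF : Computable₂ F) {k s : α → ℕ} {C : α → List Bool}
    (hk : Computable k) (hs : Computable s) (hC : Computable C) :
    Computable (fun a => tst g F (k a) (s a) (C a)) := by
  have h : Computable₂ (fun (x y : ℕ) => decide (x < y)) := by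
    have : Primrec₂ (fun (x y : ℕ) => decide (x < y)) := Primrec.nat_lt.decide
    exact this.to_comp
  refine h.comp ?_ (computable_two_pow hs)
  refine Primrec.nat_mul.to_comp.comp ?_ (computable_two_pow hk)
  refine computable_cnt (p := fun a => badb g F (k a) (s a) (C a)) ?_ hs
  exact computable_badb hg hF (hk.comp Computable.fst) (hs.comp Computable.fst)
    (hC.comp Computable.fst) Computable.snd

/-- decoded search test -/
def srt (g : ℕ → Option (List Bool)) (F : List Bool → ℕ → Option ℕ) (k m : ℕ) : Bool :=
  match (decode m : Option (ℕ × List Bool)) with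
  | none => false
  | some q => tst g F k q.1 q.2

lemma computable_srt {g : ℕ → Option (List Bool)}
    {F : List Bool → ℕ → Option ℕ} (hg : Computable g) (hF : Computable₂ F) (k1 : ℕ) :
    Computable (fun p : ℕ × ℕ => srt g F (k1 + p.1) p.2) := by
  have h1 : Computable (fun p : ℕ × ℕ => (decode p.2 : Option (ℕ × List Bool))) :=
    Computable.decode.comp Computable.snd
  have h2 : Computable₂ (fun (p : ℕ × ℕ) (q : ℕ × List Bool) => tst g F (k1 + p.1) q.1 q.2) := by
    refine computable_tst hg hF ?_ ?_ ?_
    · exact Primrec.nat_add.to_comp.comp (Computable.const k1)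
        (Computable.fst.comp Computable.fst)
    · exact Computable.fst.comp Computable.snd
    · exact Computable.snd.comp Computable.snd
  refine (Computable.option_casesOn h1 (Computable.const false) h2).of_eq ?_
  rintro ⟨a, m⟩
  simp only [srt]
  cases (decode m : Option (ℕ × List Bool)) <;> rfl

lemma srt_spec {g : ℕ → Option (List Bool)} {F : List Bool → ℕ → Option ℕ} {k m : ℕ}
    (h : srt g F k m = true) :
    tst g F k ((decode m : Option (ℕ × List Bool)).getD (0, [])).1
      ((decode m : Option (ℕ × List Bool)).getD (0, [])).2 = true := by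
  unfold srt at h
  cases hd : (decode m : Option (ℕ × List Bool)) with
  | none => rw [hd] at h; simp at h
  | some q => rw [hd] at h; simpa using h

lemma exists_slc {g : ℕ → Option (List Bool)}
    {F : List Bool → ℕ → Option ℕ} (hg : Computable g) (hF : Computable₂ F) (k1 : ℕ)
    (hex : ∀ k, ∃ s C, tst g F (k1 + k) s C = true) :
    ∃ slc : ℕ → ℕ × List Bool, Computable slc ∧
      ∀ k, tst g F (k1 + k) (slc k).1 (slc k).2 = true := by
  have hex' : ∀ k, ∃ m, srt g F (k1 + k) m = true := by
    intro k
    obtain ⟨s, C, h⟩ := hex k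
    refine ⟨encode (s, C), ?_⟩
    simp only [srt, encodek]
    exact h
  have hc : ComputablePred (fun p : ℕ × ℕ => srt g F (k1 + p.1) p.2 = true) := by
    refine ComputablePred.computable_iff.2 ⟨_, computable_srt hg hF k1, rfl⟩
  have hf := Computable.find (P := fun k m => srt g F (k1 + k) m = true) hc hex'
  refine ⟨fun k => ((decode (Nat.find (hex' k)) : Option (ℕ × List Bool)).getD (0, [])), ?_, ?_⟩
  · exact Computable.option_getD (Computable.decode.comp hf) (Computable.const (0, []))
  · intro k
    exact srt_spec (Nat.find_spec (hex' k))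

lemma tst_iff {g : ℕ → Option (List Bool)} {F : List Bool → ℕ → Option ℕ} {k s : ℕ}
    {C : List Bool} : tst g F k s C = true ↔
      mu {X | badb g F k s C (pre X s) = true} < (2⁻¹ : ℝ≥0∞) ^ k := by
  rw [mu_pred, tst, decide_eq_true_eq]
  have h2s : (2 : ℝ≥0∞) ^ s ≠ 0 := by positivity
  have h2s' : (2 : ℝ≥0∞) ^ s ≠ ∞ := ENNReal.pow_ne_top (by norm_num)
  have h2k : (2 : ℝ≥0∞) ^ k ≠ 0 := by positivity
  have h2k' : (2 : ℝ≥0∞) ^ k ≠ ∞ := ENNReal.pow_ne_top (by norm_num)
  rw [← ENNReal.inv_pow, ← ENNReal.inv_pow, ← div_eq_mul_inv,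
    ENNReal.div_lt_iff (Or.inl h2s) (Or.inl h2s'), mul_comm ((2 ^ k)⁻¹), ← div_eq_mul_inv,
    ENNReal.lt_div_iff_mul_lt (Or.inl h2k) (Or.inl h2k')]
  rw [← Nat.cast_lt (α := ℝ≥0∞)]
  push_cast
  rfl

/-- the base-2 logarithm as a bounded sum -/
lemma log_eq_sum (n : ℕ) :
    Nat.log 2 n = ∑ i ∈ Finset.range n, if decide (2 ^ (i + 1) ≤ n) then 1 else 0 := by
  simp only [decide_eq_true_eq]
  rw [← Finset.card_filter]
  rcases Nat.eq_zero_or_pos n with h | h
  · subst h; simp
  · have : (Finset.range n).filter (fun i => 2 ^ (i + 1) ≤ n) = Finset.range (Nat.log 2 n) := by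
      ext i
      simp only [Finset.mem_filter, Finset.mem_range]
      rw [← Nat.le_log_iff_pow_le (by norm_num) (by omega)]
      constructor
      · rintro ⟨_, h2⟩; omega
      · intro h2
        refine ⟨?_, h2⟩
        have := Nat.log_lt_self 2 (show n ≠ 0 by omega)
        omega
    rw [this, Finset.card_range]

lemma computable_log : Computable (Nat.log 2) := by
  refine Computable.of_eq ?_ (fun n => (log_eq_sum n).symm)
  refine computable_bsum (f := fun n i => if decide (2 ^ (i + 1) ≤ n) then 1 else 0) ?_
    Computable.id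
  have h3 : Computable (fun b : Bool => if b then 1 else 0) := (Primrec.dom_bool _).to_comp
  refine h3.comp ?_
  have h : Computable₂ (fun (x y : ℕ) => decide (x ≤ y)) := by
    have : Primrec₂ (fun (x y : ℕ) => decide (x ≤ y)) := Primrec.nat_le.decide
    exact this.to_comp
  exact h.comp (computable_two_pow (Computable.succ.comp Computable.snd)) Computable.fst

end Pool.Agent.MP_1b0fb5_lc
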