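import Pool.Agent.MP_1b0fb5_lc.Main

set_option autoImplicit false

namespace Pool.Agent.MP_1b0fb5_lc

open MeasureTheory Set Encodable
open scoped ENNReal

lemma exists_opn {q : List Bool → Bool} (hq : Computable q) :
    ∃ g : ℕ → Option (List Bool), Computable g ∧ {X | ∃ s, q (pre X s) = true} = opn g := by
  refine ⟨fun j => (decode j : Option (List Bool)).bind
    (fun σ => cond (q σ) (some σ) none), ?_, ?_⟩
  · refine Computable.option_bind Computable.decode ?_
    exact Computable.cond (hq.comp Computable.snd) (Computable.option_some.comp Computable.snd)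
      (Computable.const none)
  · ext X
    simp only [opn, Set.mem_ofPred_eq, Option.bind_eq_some_iff]
    constructor
    · rintro ⟨s, hs⟩
      refine ⟨encode (pre X s), pre X s, ⟨pre X s, encodek _, ?_⟩, by simp⟩
      rw [hs]; rfl
    · rintro ⟨j, σ, ⟨τ, _, hτ⟩, hσ⟩
      cases hb : q τ with
      | false => rw [hb] at hτ; simp at hτ
      | true =>
        rw [hb] at hτ
        simp only [cond_true, Option.some.injEq] at hτ
        subst hτ
        exact ⟨τ.length, by rw [← hσ]; exact hb⟩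

/-- defined with a boolean value at `n` -/
def dfb (F : List Bool → ℕ → Option ℕ) (n : ℕ) (σ : List Bool) : Bool :=
  hasv F σ n false || hasv F σ n true

lemma hasv_key {F : List Bool → ℕ → Option ℕ} {n : ℕ} {σ : List Bool} (h : dfb F n σ = true)
    (b : Bool) : (hasv F σ n b = true) ↔ (hasv F σ n true = b) := by
  simp only [dfb, Bool.or_eq_true] at h
  rcases h with h | h
  · have h' : F σ n = some 0 := by simpa [hasv] using h
    cases b <;> simp [hasv, h']
  · have h' : F σ n = some 1 := by simpa [hasv] using h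
    cases b <;> simp [hasv, h']

lemma computable_dfb {F : List Bool → ℕ → Option ℕ} (hF : Computable₂ F) (n : ℕ) :
    Computable (dfb F n) :=
  Primrec.or.to_comp.comp (computable_hasv hF Computable.id (Computable.const n)
    (Computable.const false)) (computable_hasv hF Computable.id (Computable.const n)
    (Computable.const true))

lemma hasv_mono {F : List Bool → ℕ → Option ℕ} (hF : IsFun F) {σ τ : List Bool} (h : σ <+: τ)
    {n : ℕ} {b : Bool} (hh : hasv F σ n b = true) : hasv F τ n b = true := by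
  simp only [hasv, decide_eq_true_eq] at hh ⊢
  exact hF.mono _ _ _ _ h hh

lemma dfb_mono {F : List Bool → ℕ → Option ℕ} (hF : IsFun F) {σ τ : List Bool} (h : σ <+: τ)
    {n : ℕ} (hh : dfb F n σ = true) : dfb F n τ = true := by
  simp only [dfb, Bool.or_eq_true] at hh ⊢
  exact hh.imp (hasv_mono hF h) (hasv_mono hF h)

/-- oracles for which the functional is defined with boolean value at `n` -/
def domF (F : List Bool → ℕ → Option ℕ) (n : ℕ) : Set (ℕ → Bool) :=
  {X | ∃ s, dfb F n (pre X s) = true}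

/-- alive but undefined somewhere on the block -/
def und (g : ℕ → Option (List Bool)) (F : List Bool → ℕ → Option ℕ) (k s : ℕ) :
    Set (ℕ → Bool) :=
  {X | okb g s (pre X s) = true ∧ ∃ i < 2 ^ k, dfb F (2 ^ k + i) (pre X s) = false}

lemma measurable_und (g : ℕ → Option (List Bool)) (F : List Bool → ℕ → Option ℕ) (k s : ℕ) :
    MeasurableSet (und g F k s) :=
  measurable_clopen s (fun τ => okb g s τ = true ∧ ∃ i < 2 ^ k, dfb F (2 ^ k + i) τ = false)

lemma und_anti (g : ℕ → Option (List Bool)) {F : List Bool → ℕ → Option ℕ} (hF : IsFun F) (k : ℕ) :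
    Antitone (und g F k) := by
  rintro s t hst X ⟨h1, i, hi, h2⟩
  refine ⟨stg_anti g hst h1, i, hi, ?_⟩
  rw [← Bool.not_eq_true] at h2 ⊢
  exact fun h => h2 (dfb_mono hF (pre_prefix X hst) h)

lemma exists_und_small {g : ℕ → Option (List Bool)} {F : List Bool → ℕ → Option ℕ}
    (hF : IsFun F) (htot : ∀ n, mu ((opn g)ᶜ \ domF F n) = 0) (k : ℕ) {ε : ℝ≥0∞} (hε : 0 < ε) :
    ∃ s, mu (und g F k s) < ε := by
  have h0 : mu (⋂ s, und g F k s) = 0 := by
    have hsub : (⋂ s, und g F k s) ⊆ ⋃ n, ((opn g)ᶜ \ domF F n) := by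
      intro X hX
      rw [Set.mem_iInter] at hX
      have hP : X ∈ (opn g)ᶜ := by
        rw [← iInter_stg, Set.mem_iInter]
        exact fun s => (hX s).1
      by_contra hcon
      simp only [Set.mem_iUnion, Set.mem_sdiff, not_exists, not_and, not_not] at hcon
      have hall : ∀ i < 2 ^ k, ∃ s, dfb F (2 ^ k + i) (pre X s) = true := fun i _ => hcon _ hP
      obtain ⟨s, hs⟩ := exists_common (2 ^ k) (fun i s => dfb F (2 ^ k + i) (pre X s) = true)
        (fun m s t hst h => dfb_mono hF (pre_prefix X hst) h) hall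
      obtain ⟨_, i, hi, h2⟩ := hX s
      rw [hs i hi] at h2
      exact Bool.noConfusion h2
    exact measure_mono_null hsub (measure_iUnion_null htot)
  have ht := tendsto_measure_iInter_atTop (μ := mu)
    (fun s => (measurable_und g F k s).nullMeasurableSet) (und_anti g hF k)
    ⟨0, measure_ne_top _ _⟩
  rw [h0] at ht
  obtain ⟨s, hs⟩ := (ht.eventually (gt_mem_nhds hε)).exists
  exact ⟨s, hs⟩

open Classical in
lemma exists_sC {g : ℕ → Option (List Bool)} {F : List Bool → ℕ → Option ℕ}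
    (hF : IsFun F) (htot : ∀ n, mu ((opn g)ᶜ \ domF F n) = 0) (k : ℕ) (hk : 6 ≤ k) :
    ∃ s C, tst g F k s C = true := by
  obtain ⟨s, hs⟩ := exists_und_small hF htot k (ε := (2⁻¹ : ℝ≥0∞) ^ (k + 1))
    (ENNReal.pow_pos (by simp) _)
  set M := 2 ^ (k - 2) with hM
  have hN : 2 ^ k = 4 * M := by
    rw [hM, show k = (k - 2) + 2 by omega, pow_add]
    simp only [Nat.add_sub_cancel]; ring
  set A : Finset (Fin s → Bool) := Finset.univ.filter
    (fun τ => ∀ i < 2 ^ k, dfb F (2 ^ k + i) (List.ofFn τ) = true) with hA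
  obtain ⟨C, hC⟩ := exists_good A M (2 ^ k) hN
    (fun τ i => hasv F (List.ofFn τ) (2 ^ k + i) true)
  refine ⟨s, List.ofFn C, ?_⟩
  rw [tst_iff]
  have hagr : ∀ τ ∈ A, agr F k (List.ofFn C) (List.ofFn τ) =
      (Finset.univ.filter (fun i : Fin (2 ^ k) =>
        hasv F (List.ofFn τ) (2 ^ k + i) true = C i)).card := by
    intro τ hτ
    rw [hA, Finset.mem_filter] at hτ
    rw [agr, Finset.sum_range, Finset.card_filter]
    refine Finset.sum_congr rfl (fun i _ => ?_)
    have hgd : (List.ofFn C).getD (i : ℕ) false = C i := by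
      rw [List.getD_eq_getElem?_getD, List.getElem?_ofFn]
      simp
    rw [hgd]
    exact if_congr (hasv_key (hτ.2 i i.2) (C i)) rfl rfl
  have hsub : {X | badb g F k s (List.ofFn C) (pre X s) = true} ⊆ und g F k s ∪
      {X | (fun i : Fin s => X i) ∈ A.filter (fun τ => (Finset.univ.filter
        (fun i : Fin (2 ^ k) => hasv F (List.ofFn τ) (2 ^ k + i) true = C i)).card < M)} := by
    intro X hX
    simp only [Set.mem_ofPred_eq, badb, Bool.and_eq_true, Bool.not_eq_true'] at hX
    obtain ⟨h1, h2⟩ := hX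
    by_cases hall : ∀ i < 2 ^ k, dfb F (2 ^ k + i) (pre X s) = true
    · right
      have hmem : (fun i : Fin s => X i) ∈ A := by
        rw [hA, Finset.mem_filter]
        refine ⟨Finset.mem_univ _, ?_⟩
        rw [← pre_eq_ofFn]; exact hall
      show _ ∈ Finset.filter _ _
      rw [Finset.mem_filter]
      refine ⟨hmem, ?_⟩
      rw [← hagr _ hmem, ← pre_eq_ofFn]
      simp only [goodb, decide_eq_false_iff_not, not_le] at h2
      omega
    · left
      simp only [not_forall, Bool.not_eq_true] at hall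
      obtain ⟨i, hi, h3⟩ := hall
      exact ⟨h1, i, hi, h3⟩
  have hcard : ((A.filter (fun τ => (Finset.univ.filter
        (fun i : Fin (2 ^ k) => hasv F (List.ofFn τ) (2 ^ k + i) true = C i)).card < M)).card : ℝ≥0∞)
        * (2⁻¹ : ℝ≥0∞) ^ s ≤ (2⁻¹ : ℝ≥0∞) ^ (k + 1) := by
    set c := (A.filter (fun τ => (Finset.univ.filter
        (fun i : Fin (2 ^ k) => hasv F (List.ofFn τ) (2 ^ k + i) true = C i)).card < M)).card with hc
    have hAc : A.card ≤ 2 ^ s := by
      refine (Finset.card_le_univ A).trans ?_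
      simp
    have hnat : c * 2 ^ (k + 1) ≤ 2 ^ s := by
      have h81 : 0 < 81 ^ M := by positivity
      refine Nat.le_of_mul_le_mul_right (?_ : c * 2 ^ (k + 1) * 81 ^ M ≤ 2 ^ s * 81 ^ M) h81
      calc c * 2 ^ (k + 1) * 81 ^ M = c * (2 ^ (k + 1) * 81 ^ M) := by ring
        _ ≤ c * 128 ^ M := Nat.mul_le_mul_left _ (pow_bound k hk)
        _ ≤ A.card * 81 ^ M := hC
        _ ≤ 2 ^ s * 81 ^ M := Nat.mul_le_mul_right _ hAc
    have h2s : (2 : ℝ≥0∞) ^ s ≠ 0 := by positivity
    have h2s' : (2 : ℝ≥0∞) ^ s ≠ ∞ := ENNReal.pow_ne_top (by norm_num)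
    have h2k : (2 : ℝ≥0∞) ^ (k + 1) ≠ 0 := by positivity
    have h2k' : (2 : ℝ≥0∞) ^ (k + 1) ≠ ∞ := ENNReal.pow_ne_top (by norm_num)
    rw [← ENNReal.inv_pow, ← ENNReal.inv_pow, ← div_eq_mul_inv,
      ENNReal.div_le_iff_le_mul (Or.inl h2s) (Or.inl h2s'), mul_comm ((2 ^ (k + 1))⁻¹),
      ← div_eq_mul_inv, ENNReal.le_div_iff_mul_le (Or.inl h2k) (Or.inl h2k')]
    exact_mod_cast hnat
  calc mu {X | badb g F k s (List.ofFn C) (pre X s) = true}
      ≤ mu (und g F k s) + mu {X | (fun i : Fin s => X i) ∈ A.filter (fun τ => (Finset.univ.filter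
        (fun i : Fin (2 ^ k) => hasv F (List.ofFn τ) (2 ^ k + i) true = C i)).card < M)} :=
        (measure_mono hsub).trans (measure_union_le _ _)
    _ < (2⁻¹ : ℝ≥0∞) ^ (k + 1) + (2⁻¹ : ℝ≥0∞) ^ (k + 1) := by
        refine ENNReal.add_lt_add_of_lt_of_le (measure_ne_top _ _) hs ?_
        rw [mu_fin]
        exact hcard
    _ = (2⁻¹ : ℝ≥0∞) ^ k := by
        rw [pow_succ, ← mul_add, ENNReal.inv_two_add_inv_two, mul_one]

end Pool.Agent.MP_1b0fb5_lc
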