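import Pool.Agent.MP_1b0fb5_lc.MainB

set_option autoImplicit false

namespace Pool.Agent.MP_1b0fb5_lc

open MeasureTheory Set Encodable
open scoped ENNReal

open Classical in
/-- either the functional is not total (with boolean values) on `X`, or its output is
approximated by a computable sequence on a quarter of each large dyadic block -/
def tgt (F : List Bool → ℕ → Option ℕ) : Set (ℕ → Bool) :=
  {X | (∃ n, X ∉ domF F n) ∨ ∃ C : ℕ → Bool, Computable C ∧ ∃ k1, ∀ k, k1 ≤ k →
    2 ^ k ≤ 4 * ((Finset.range (2 ^ k)).filter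
      (fun i => ev F X (2 ^ k + i) (C (2 ^ k + i)).toNat)).card}

lemma exists_small_pow {ε : ℝ≥0∞} (hε : 0 < ε) :
    ∃ k1, 6 ≤ k1 ∧ ∑' k : ℕ, (2⁻¹ : ℝ≥0∞) ^ (k1 + k) < ε := by
  have h1 : ∀ k1 : ℕ, ∑' k : ℕ, (2⁻¹ : ℝ≥0∞) ^ (k1 + k) = (2⁻¹ : ℝ≥0∞) ^ k1 * 2 := by
    intro k1
    simp_rw [pow_add]
    rw [ENNReal.tsum_mul_left, ENNReal.tsum_geometric]
    congr 1
    rw [ENNReal.one_sub_inv_two, inv_inv]
  have h2 : Filter.Tendsto (fun k1 : ℕ => (2⁻¹ : ℝ≥0∞) ^ k1 * 2) Filter.atTop (nhds (0 * 2)) := by
    refine ENNReal.Tendsto.mul_const ?_ (Or.inr (by norm_num))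
    exact ENNReal.tendsto_pow_atTop_nhds_zero_of_lt_one (by norm_num)
  rw [zero_mul] at h2
  obtain ⟨k1, hk1, hk2⟩ := ((h2.eventually (gt_mem_nhds hε)).and
    (Filter.eventually_ge_atTop 6)).exists
  exact ⟨k1, hk2, by rw [h1]; exact hk1⟩

open Classical in
lemma dns_tgt {F : List Bool → ℕ → Option ℕ} (hF : IsFun F) : Dns (tgt F) := by
  rintro P ⟨g, hg, rfl⟩ hpos
  by_cases h : ∃ n, 0 < mu ((opn g)ᶜ \ domF F n)
  · obtain ⟨n, hn⟩ := h
    obtain ⟨g', hg', he⟩ := exists_opn (computable_dfb hF.comp n)
    refine ⟨(opn g)ᶜ \ domF F n, ?_, hn, Set.sdiff_subset, ?_⟩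
    · have : domF F n = opn g' := he
      rw [this]
      exact IsNice.diff ⟨g, hg, rfl⟩ hg'
    · intro X hX
      exact Or.inl ⟨n, hX.2⟩
  · simp only [not_exists, not_lt, nonpos_iff_eq_zero] at h
    obtain ⟨k1, hk1, hsum⟩ := exists_small_pow hpos
    obtain ⟨slc, hslc, hspec⟩ := exists_slc hg hF.comp k1
      (fun k => exists_sC hF h (k1 + k) (by omega))
    set Bd : ℕ → Set (ℕ → Bool) := fun k =>
      {X | badb g F (k1 + k) (slc k).1 (slc k).2 (pre X (slc k).1) = true} with hBd
    have hm : ∀ k, mu (Bd k) ≤ (2⁻¹ : ℝ≥0∞) ^ (k1 + k) := fun k => (tst_iff.1 (hspec k)).le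
    obtain ⟨e, hec, heo⟩ : ∃ e : ℕ → Option (List Bool), Computable e ∧ opn e = ⋃ k, Bd k := by
      refine ⟨fun j => (decode j : Option (ℕ × List Bool)).bind (fun q =>
        cond (decide (q.2.length = (slc q.1).1) &&
          badb g F (k1 + q.1) (slc q.1).1 (slc q.1).2 q.2) (some q.2) none), ?_, ?_⟩
      · refine Computable.option_bind Computable.decode ?_
        have hk : Computable (fun p : ℕ × (ℕ × List Bool) => p.2.1) :=
          Computable.fst.comp Computable.snd
        have hτ : Computable (fun p : ℕ × (ℕ × List Bool) => p.2.2) :=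
          Computable.snd.comp Computable.snd
        have hs : Computable (fun p : ℕ × (ℕ × List Bool) => (slc p.2.1).1) :=
          Computable.fst.comp (hslc.comp hk)
        have hC : Computable (fun p : ℕ × (ℕ × List Bool) => (slc p.2.1).2) :=
          Computable.snd.comp (hslc.comp hk)
        have hk' : Computable (fun p : ℕ × (ℕ × List Bool) => k1 + p.2.1) :=
          Primrec.nat_add.to_comp.comp (Computable.const k1) hk
        have hbad := computable_badb hg hF.comp hk' hs hC hτ
        have hE : Computable₂ (fun (x y : ℕ) => decide (x = y)) := by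
          have : Primrec₂ (fun (x y : ℕ) => decide (x = y)) := Primrec.eq.decide
          exact this.to_comp
        exact Computable.cond (Primrec.and.to_comp.comp
          (hE.comp (Computable.list_length.comp hτ) hs) hbad)
          (Computable.option_some.comp hτ) (Computable.const none)
      · ext X
        simp only [opn, Set.mem_ofPred_eq, Option.bind_eq_some_iff, Set.mem_iUnion, hBd]
        constructor
        · rintro ⟨j, σ, ⟨⟨k, τ⟩, _, hτ⟩, hσ⟩
          refine ⟨k, ?_⟩
          cases hb : (decide ((k, τ).2.length = (slc (k, τ).1).1) &&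
            badb g F (k1 + (k, τ).1) (slc (k, τ).1).1 (slc (k, τ).1).2 (k, τ).2) with
          | false => rw [hb] at hτ; simp at hτ
          | true =>
            rw [hb] at hτ
            simp only [cond_true, Option.some.injEq] at hτ
            subst hτ
            simp only [Bool.and_eq_true, decide_eq_true_eq] at hb
            rw [← hb.1, ← hσ]
            rw [hb.1]
            exact hb.2
        · rintro ⟨k, hk⟩
          refine ⟨encode (k, pre X (slc k).1), pre X (slc k).1,
            ⟨(k, pre X (slc k).1), encodek _, ?_⟩, by simp⟩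
          simp only [pre_length, decide_true, Bool.true_and]
          rw [hk]; rfl
    refine ⟨(opn g)ᶜ \ opn e, IsNice.diff ⟨g, hg, rfl⟩ hec, ?_, Set.sdiff_subset, ?_⟩
    · by_contra hcon
      rw [not_lt, nonpos_iff_eq_zero] at hcon
      have h1 : mu (opn g)ᶜ ≤ mu ((opn g)ᶜ \ opn e) + mu (opn e) := by
        refine (measure_mono ?_).trans (measure_union_le _ _)
        intro X hX
        by_cases hXe : X ∈ opn e
        · exact Or.inr hXe
        · exact Or.inl ⟨hX, hXe⟩
      have h2 : mu (opn e) ≤ ∑' k : ℕ, (2⁻¹ : ℝ≥0∞) ^ (k1 + k) := by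
        rw [heo]
        exact (measure_iUnion_le _).trans (ENNReal.tsum_le_tsum hm)
      rw [hcon, zero_add] at h1
      exact absurd (h1.trans h2) (not_le.2 hsum)
    · intro X hX
      right
      refine ⟨fun n => (slc (Nat.log 2 n - k1)).2.getD (n - 2 ^ Nat.log 2 n) false, ?_, k1, ?_⟩
      · have h1 : Computable (fun n : ℕ => slc (Nat.log 2 n - k1)) :=
          hslc.comp (Primrec.nat_sub.to_comp.comp computable_log (Computable.const k1))
        exact (Primrec.list_getD false).to_comp.comp (Computable.snd.comp h1)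
          (Primrec.nat_sub.to_comp.comp Computable.id (computable_two_pow computable_log))
      · intro k hk
        obtain ⟨j, rfl⟩ : ∃ j, k = k1 + j := ⟨k - k1, by omega⟩
        have hnb : X ∉ Bd j := by
          intro hXb
          apply hX.2
          rw [heo]
          exact Set.mem_iUnion.2 ⟨j, hXb⟩
        have hok : okb g (slc j).1 (pre X (slc j).1) = true := by
          have := hX.1
          rw [← iInter_stg, Set.mem_iInter] at this
          exact this (slc j).1
        have hgood : goodb F (k1 + j) (slc j).2 (pre X (slc j).1) = true := by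
          by_contra hcon
          apply hnb
          simp only [Bool.not_eq_true] at hcon
          simp only [hBd, Set.mem_ofPred_eq, badb, hok, hcon]
          rfl
        simp only [goodb, decide_eq_true_eq] at hgood
        refine hgood.trans (Nat.mul_le_mul_left 4 ?_)
        rw [agr, ← Finset.card_filter]
        apply Finset.card_le_card
        intro i hi
        rw [Finset.mem_filter] at hi ⊢
        refine ⟨hi.1, ?_⟩
        have hi1 := Finset.mem_range.1 hi.1
        have hlog : Nat.log 2 (2 ^ (k1 + j) + i) = k1 + j := by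
          apply Nat.log_eq_of_pow_le_of_lt_pow
          · omega
          · rw [pow_succ]; omega
        simp only [hlog]
        rw [show 2 ^ (k1 + j) + i - 2 ^ (k1 + j) = i by omega,
          show k1 + j - k1 = j by omega]
        have h2 := hi.2
        simp only [hasv, decide_eq_true_eq] at h2
        exact ⟨_, h2⟩

end Pool.Agent.MP_1b0fb5_lc
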