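import Pool.Agent.MP_1b0fb5_lc.MainC

set_option autoImplicit false

namespace Pool.Agent.MP_1b0fb5_lc

open MeasureTheory Set Encodable
open scoped ENNReal

open Classical in
/-- Martin-Löf test (the measure condition is expressed by counting) -/
def IsTest (f : ℕ → ℕ → Option (List Bool)) : Prop :=
  Computable₂ f ∧
      (∀ n M L : ℕ,
        ((Finset.univ : Finset (Fin L → Bool)).filter (fun τ =>
          ∃ j < M, ∃ σ : List Bool, f n j = some σ ∧ σ.length ≤ L ∧
            ∀ i : Fin L, (i : ℕ) < σ.length → σ.getD i false = τ i)).card * 2 ^ n ≤ 2 ^ L)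

open Classical in
lemma mu_test_le {f : ℕ → ℕ → Option (List Bool)} (hf : IsTest f) (n : ℕ) :
    mu (opn (f n)) ≤ (2⁻¹ : ℝ≥0∞) ^ n := by
  set A : ℕ → Set (ℕ → Bool) := fun L => {X | (fun i : Fin L => X i) ∈
    (Finset.univ : Finset (Fin L → Bool)).filter (fun τ =>
          ∃ j < L, ∃ σ : List Bool, f n j = some σ ∧ σ.length ≤ L ∧
            ∀ i : Fin L, (i : ℕ) < σ.length → σ.getD i false = τ i)} with hA
  have hA' : ∀ L X, X ∈ A L ↔ ∃ j < L, ∃ σ : List Bool, f n j = some σ ∧ σ.length ≤ L ∧
      σ = pre X σ.length := by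
    intro L X
    simp only [hA, Set.mem_ofPred_eq, Finset.mem_filter, Finset.mem_univ, true_and]
    refine exists_congr fun j => and_congr_right fun _ => exists_congr fun σ =>
      and_congr_right fun _ => and_congr_right fun hσ => ?_
    constructor
    · intro h
      apply List.ext_getElem
      · simp
      · intro i h1 h2
        have := h ⟨i, lt_of_lt_of_le h1 hσ⟩ h1
        simp only [List.getD_eq_getElem _ _ h1] at this
        rw [this]
        simp [pre]
    · intro h i hi
      rw [List.getD_eq_getElem _ _ hi]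
      conv_lhs => rw [List.getElem_of_eq h hi]
      simp [pre]
  have hU : opn (f n) = ⋃ L, A L := by
    ext X
    simp only [Set.mem_iUnion, hA', opn, Set.mem_ofPred_eq]
    constructor
    · rintro ⟨j, σ, h1, h2⟩
      exact ⟨max (j+1) σ.length, j, by simp, σ, h1, by simp, h2⟩
    · rintro ⟨L, j, _, σ, h1, _, h2⟩
      exact ⟨j, σ, h1, h2⟩
  have hmono : Monotone A := by
    intro L L' hLL' X hX
    rw [hA'] at hX ⊢
    obtain ⟨j, hj, σ, h1, h2, h3⟩ := hX
    exact ⟨j, by omega, σ, h1, by omega, h3⟩
  rw [hU, hmono.measure_iUnion]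
  refine iSup_le fun L => ?_
  rw [hA, mu_fin]
  have h := hf.2 n L L
  set c := ((Finset.univ : Finset (Fin L → Bool)).filter (fun τ =>
          ∃ j < L, ∃ σ : List Bool, f n j = some σ ∧ σ.length ≤ L ∧
            ∀ i : Fin L, (i : ℕ) < σ.length → σ.getD i false = τ i)).card with hc
  have h2s : (2 : ℝ≥0∞) ^ L ≠ 0 := by positivity
  have h2s' : (2 : ℝ≥0∞) ^ L ≠ ∞ := ENNReal.pow_ne_top (by norm_num)
  have h2k : (2 : ℝ≥0∞) ^ n ≠ 0 := by positivity
  have h2k' : (2 : ℝ≥0∞) ^ n ≠ ∞ := ENNReal.pow_ne_top (by norm_num)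
  rw [← ENNReal.inv_pow, ← ENNReal.inv_pow, ← div_eq_mul_inv,
      ENNReal.div_le_iff_le_mul (Or.inl h2s) (Or.inl h2s'), mul_comm ((2 ^ n)⁻¹),
      ← div_eq_mul_inv, ENNReal.le_div_iff_mul_le (Or.inl h2k) (Or.inl h2k')]
  exact_mod_cast h

lemma null_of_le_pow {S : Set (ℕ → Bool)} (h : ∀ n : ℕ, mu S ≤ (2⁻¹ : ℝ≥0∞) ^ n) : mu S = 0 := by
  have h2 : Filter.Tendsto (fun n : ℕ => (2⁻¹ : ℝ≥0∞) ^ n) Filter.atTop (nhds 0) :=
    ENNReal.tendsto_pow_atTop_nhds_zero_of_lt_one (by norm_num)
  exact le_antisymm (ge_of_tendsto' h2 h) (zero_le)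

/-- the even part -/
def evn (X : ℕ → Bool) : ℕ → Bool := fun n => X (2 * n)

lemma measurable_evn : Measurable evn := by unfold evn; fun_prop

lemma map_evn : mu.map evn = mu := by
  refine Measure.eq_infinitePi _ fun s t ht => ?_
  rw [Measure.map_apply measurable_evn (.pi s.countable_toSet fun _ _ => ht _)]
  have h1 : evn ⁻¹' ((s : Set ℕ).pi t) =
      ((s.image (fun i => 2 * i) : Finset ℕ) : Set ℕ).pi (fun j => t (j / 2)) := by
    ext X
    simp [evn, Set.mem_pi]
  rw [h1, mu, Measure.infinitePi_pi _ (fun i _ => ht _), Finset.prod_image]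
  · refine Finset.prod_congr rfl fun i _ => ?_
    rw [Nat.mul_div_cancel_left _ (by norm_num)]
  · intro a _ b _ hab
    simpa using hab

/-- even part of a string -/
def evs (τ : List Bool) : List Bool := (List.range (τ.length / 2)).map (fun i => τ.getD (2 * i) false)

lemma computable_evs : Computable evs := by
  have : Primrec evs := by
    unfold evs
    refine Primrec.list_map ?_ ?_
    · exact Primrec.list_range.comp (Primrec.nat_div.comp Primrec.list_length (Primrec.const 2))
    · exact (Primrec.list_getD false).comp Primrec.fst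
        (Primrec.nat_mul.comp (Primrec.const 2) Primrec.snd)
  exact this.to_comp

lemma evs_pre (X : ℕ → Bool) (s : ℕ) : evs (pre X s) = pre (evn X) (s / 2) := by
  unfold evs
  rw [pre_length]
  show _ = (List.range (s/2)).map (evn X)
  apply List.map_congr_left
  intro i hi
  rw [List.mem_range] at hi
  have h1 : 2 * i < (pre X s).length := by rw [pre_length]; omega
  rw [List.getD_eq_getElem _ _ h1]
  simp [pre, evn]

lemma opn_evn {g : ℕ → Option (List Bool)} (hg : Computable g) :
    ∃ g' : ℕ → Option (List Bool), Computable g' ∧ evn ⁻¹' (opn g) = opn g' := by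
  obtain ⟨g', h1, h2⟩ := exists_opn (q := fun τ => !(okb g τ.length (evs τ)))
    (Primrec.not.to_comp.comp ((computable_okb hg).comp Computable.list_length computable_evs))
  refine ⟨g', h1, ?_⟩
  rw [← h2]
  ext X
  simp only [Set.mem_preimage, opn, Set.mem_ofPred_eq, pre_length, evs_pre, okb, Bool.not_eq_true',
    decide_eq_false_iff_not, not_forall, Bool.not_eq_false, hitb_iff, prefix_pre_iff]
  constructor
  · rintro ⟨j, σ, hj, hσ⟩
    refine ⟨max (j+1) (2 * σ.length), j, by simp, σ, hj, ?_, hσ⟩
    have := le_max_right (j+1) (2 * σ.length)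
    omega
  · rintro ⟨s, j, _, σ, hj, _, hσ⟩
    exact ⟨j, σ, hj, hσ⟩

lemma dns_test {f : ℕ → ℕ → Option (List Bool)} (hf : IsTest f) : Dns (⋂ n, opn (f n))ᶜ := by
  apply dns_null
  · intro n
    exact ⟨f n, hf.1.comp (Computable.const n) Computable.id, rfl⟩
  · apply null_of_le_pow
    intro n
    exact (measure_mono (Set.iInter_subset _ n)).trans (mu_test_le hf n)

lemma dns_test_evn {f : ℕ → ℕ → Option (List Bool)} (hf : IsTest f) :
    Dns (⋂ n, evn ⁻¹' (opn (f n)))ᶜ := by
  apply dns_null
  · intro n
    exact opn_evn (hf.1.comp (Computable.const n) Computable.id)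
  · apply null_of_le_pow
    intro n
    refine (measure_mono (Set.iInter_subset _ n)).trans ?_
    rw [← Measure.map_apply measurable_evn (measurable_opn _), map_evn]
    exact mu_test_le hf n

/-- the functional applied to the even part outputs the `n`-th bit of `X` -/
def selfc (F : List Bool → ℕ → Option ℕ) (n : ℕ) : Set (ℕ → Bool) :=
  {X | ev F (evn X) n (X n).toNat}

lemma selfc_opn {F : List Bool → ℕ → Option ℕ} (hF : IsFun F) (n : ℕ) :
    ∃ g : ℕ → Option (List Bool), Computable g ∧ selfc F n = opn g := by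
  have hq : Computable (fun τ : List Bool =>
      decide (n < τ.length) && hasv F (evs τ) n (τ.getD n false)) := by
    refine Primrec.and.to_comp.comp ?_ (computable_hasv hF.comp computable_evs
      (Computable.const n) ?_)
    · have : Primrec (fun τ : List Bool => decide (n < τ.length)) :=
        (Primrec.nat_lt.comp (Primrec.const n) Primrec.list_length).decide
      exact this.to_comp
    · exact (Primrec.list_getD false).to_comp.comp Computable.id (Computable.const n)
  obtain ⟨g', h1, h2⟩ := exists_opn hq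
  refine ⟨g', h1, ?_⟩
  rw [← h2]
  have hgd : ∀ (X : ℕ → Bool) s, n < s → (pre X s).getD n false = X n := by
    intro X s hs
    rw [List.getD_eq_getElem _ _ (by simpa using hs)]
    simp [pre]
  ext X
  simp only [selfc, Set.mem_ofPred_eq, ev, pre_length, evs_pre, Bool.and_eq_true,
    decide_eq_true_eq, hasv]
  constructor
  · rintro ⟨s, hs⟩
    have hlt : n < max (n+1) (2 * s) := by
      have := le_max_left (n+1) (2*s); omega
    refine ⟨max (n+1) (2 * s), hlt, ?_⟩
    rw [hgd X _ hlt]
    refine hF.mono _ _ _ _ (pre_prefix _ ?_) hs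
    have := le_max_right (n+1) (2 * s)
    omega
  · rintro ⟨s, hs, h⟩
    rw [hgd X _ hs] at h
    exact ⟨_, h⟩

/-- flip one bit -/
def flp (m : ℕ) (X : ℕ → Bool) : ℕ → Bool := fun i => (if i = m then not else id) (X i)

lemma measurable_flp (m : ℕ) : Measurable (flp m) := by
  unfold flp
  refine measurable_pi_lambda _ fun i => ?_
  exact (measurable_from_top (f := (if i = m then not else id))).comp (measurable_pi_apply i)

lemma map_flp (m : ℕ) : mu.map (flp m) = mu := by
  have h := Measure.infinitePi_map_pi (fun _ : ℕ => coin)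
    (f := fun i => (if i = m then not else id)) (fun i => measurable_from_top)
  have h2 : (fun i : ℕ => coin.map (if i = m then not else id)) = fun _ => coin := by
    funext i
    split_ifs
    · apply Measure.ext_of_singleton
      intro b
      rw [Measure.map_apply measurable_from_top (MeasurableSet.singleton b)]
      have : not ⁻¹' {b} = {!b} := by
        ext c
        simp only [Set.mem_preimage, Set.mem_singleton_iff]
        constructor
        · rintro rfl; simp
        · rintro rfl; simp
      rw [this, coin_singleton, coin_singleton]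
    · exact Measure.map_id
  rw [h2] at h
  exact h

lemma selfc_null {F : List Bool → ℕ → Option ℕ} (hF : IsFun F) : mu (⋂ n, selfc F n) = 0 := by
  set A : ℕ → Set (ℕ → Bool) := fun K => ⋂ n ∈ Finset.range K, selfc F (2 * n + 1) with hA
  have hmeas : ∀ n, MeasurableSet (selfc F n) := by
    intro n
    obtain ⟨g, _, hg⟩ := selfc_opn hF n
    rw [hg]; exact measurable_opn g
  have hAm : ∀ K, MeasurableSet (A K) := fun K =>
    Finset.measurableSet_biInter _ (fun n _ => hmeas _)
  have hev : ∀ K X, evn (flp (2 * K + 1) X) = evn X := by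
    intro K X
    funext i
    simp only [evn, flp]
    rw [if_neg (by omega)]; rfl
  have hstep : ∀ K, A (K+1) ⊆ flp (2 * K + 1) ⁻¹' (A K \ A (K+1)) := by
    intro K X hX
    simp only [hA, Set.mem_iInter, Finset.mem_range, selfc, Set.mem_ofPred_eq] at hX
    refine ⟨?_, ?_⟩
    · simp only [hA, Set.mem_iInter, Finset.mem_range, selfc, Set.mem_ofPred_eq]
      intro n hn
      rw [hev]
      have : flp (2 * K + 1) X (2 * n + 1) = X (2 * n + 1) := by
        simp only [flp]; rw [if_neg (by omega)]; rfl
      rw [this]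
      exact hX n (by omega)
    · simp only [hA, Set.mem_iInter, Finset.mem_range, selfc, Set.mem_ofPred_eq]
      intro hcon
      have h1 := hcon K (by omega)
      rw [hev] at h1
      have h2 := hX K (by omega)
      have h3 := ev_unique hF h1 h2
      have h4 : flp (2 * K + 1) X (2 * K + 1) = !(X (2 * K + 1)) := by
        simp [flp]
      rw [h4] at h3
      cases h5 : X (2 * K + 1) <;> rw [h5] at h3 <;> simp at h3
  have hle : ∀ K, mu (A K) ≤ (2⁻¹ : ℝ≥0∞) ^ K := by
    intro K
    induction K with
    | zero => simp only [pow_zero]; exact prob_le_one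
    | succ K ih =>
      have hsub : A (K+1) ⊆ A K := by
        intro X hX
        simp only [hA, Set.mem_iInter, Finset.mem_range] at hX ⊢
        exact fun n hn => hX n (by omega)
      have h1 : mu (A (K+1)) ≤ mu (A K) - mu (A (K+1)) := by
        calc mu (A (K+1)) ≤ mu (flp (2 * K + 1) ⁻¹' (A K \ A (K+1))) := measure_mono (hstep K)
          _ = mu (A K \ A (K+1)) := by
            rw [← Measure.map_apply (measurable_flp _) ((hAm K).diff (hAm (K+1))), map_flp]
          _ = mu (A K) - mu (A (K+1)) :=
            measure_sdiff hsub (hAm (K+1)).nullMeasurableSet (measure_ne_top _ _)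
      have h2 : mu (A (K+1)) + mu (A (K+1)) ≤ mu (A K) := by
        calc mu (A (K+1)) + mu (A (K+1)) ≤ (mu (A K) - mu (A (K+1))) + mu (A (K+1)) := by gcongr
          _ = mu (A K) := tsub_add_cancel_of_le (measure_mono hsub)
      have h3 : mu (A (K+1)) * 2 ≤ (2⁻¹ : ℝ≥0∞) ^ K := by
        rw [mul_two]; exact h2.trans ih
      rw [pow_succ]
      rw [← ENNReal.le_div_iff_mul_le (Or.inl (by norm_num)) (Or.inl (by norm_num)),
        div_eq_mul_inv] at h3
      exact h3
  apply null_of_le_pow
  intro K
  refine (measure_mono ?_).trans (hle K)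
  intro X hX
  simp only [hA, Set.mem_iInter] at hX ⊢
  exact fun n _ => hX _

lemma dns_selfc {F : List Bool → ℕ → Option ℕ} (hF : IsFun F) : Dns (⋂ n, selfc F n)ᶜ :=
  dns_null (selfc_opn hF) (selfc_null hF)

end Pool.Agent.MP_1b0fb5_lc
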