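import Pool.Agent.MP_1b0fb5_lc.Comp

set_option autoImplicit false

namespace Pool.Agent.MP_1b0fb5_lc

open Encodable

/-- The characteristic function of `X`, as a partial function (the oracle). -/
def orc (X : ℕ → Bool) : ℕ →. ℕ := fun n => Part.some (X n).toNat

/-- Local (string based) description of an oracle computation. -/
def HasUse (X : ℕ → Bool) (f : ℕ →. ℕ) : Prop :=
  ∃ G : List Bool → ℕ →. ℕ, Partrec₂ G ∧
    (∀ σ τ : List Bool, ∀ n v, σ <+: τ → v ∈ G σ n → v ∈ G τ n) ∧
    ∀ n v, v ∈ f n ↔ ∃ s, v ∈ G (pre X s) n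

lemma hasUse_total (X : ℕ → Bool) (h : ℕ → ℕ) (hh : Computable h) :
    HasUse X (fun n => Part.some (h n)) := by
  refine ⟨fun _ n => Part.some (h n), ?_, ?_, ?_⟩
  · exact (hh.comp Computable.snd).partrec
  · intro σ τ n v _ h; exact h
  · intro n v
    exact ⟨fun h => ⟨0, h⟩, fun ⟨_, h⟩ => h⟩

lemma exists_common (N : ℕ) (P : ℕ → ℕ → Prop)
    (hmono : ∀ m s t, s ≤ t → P m s → P m t) (h : ∀ m < N, ∃ s, P m s) :
    ∃ s, ∀ m < N, P m s := by
  induction N with
  | zero => exact ⟨0, fun m hm => absurd hm (Nat.not_lt_zero m)⟩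
  | succ n ih =>
    obtain ⟨s, hs⟩ := ih (fun m hm => h m (by omega))
    obtain ⟨t, ht⟩ := h n (by omega)
    refine ⟨max s t, fun m hm => ?_⟩
    rcases Nat.lt_succ_iff_lt_or_eq.1 hm with h1 | h1
    · exact hmono _ _ _ (le_max_left _ _) (hs m h1)
    · rw [h1]; exact hmono _ _ _ (le_max_right _ _) ht

lemma hasUse_oracle (X : ℕ → Bool) : HasUse X (orc X) := by
  refine ⟨fun σ n => ((σ[n]?).map Bool.toNat : Option ℕ), ?_, ?_, ?_⟩
  · apply Computable.ofOption
    exact Computable.option_map (Primrec.list_getElem?.to_comp.comp Computable.fst Computable.snd)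
      ((Primrec.dom_bool Bool.toNat).to_comp.comp Computable.snd).to₂
  · intro σ τ n v hst h
    simp only [Part.mem_coe, Option.mem_def, Option.map_eq_some_iff] at h ⊢
    obtain ⟨a, ha, rfl⟩ := h
    refine ⟨a, ?_, rfl⟩
    obtain ⟨ρ, rfl⟩ := hst
    have hl : n < σ.length := by
      by_contra hcon
      rw [List.getElem?_eq_none (by omega)] at ha
      simp at ha
    rw [List.getElem?_append_left hl]; exact ha
  · intro n v
    simp only [orc, Part.mem_some_iff, Part.mem_coe, Option.mem_def, Option.map_eq_some_iff]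
    constructor
    · rintro rfl
      exact ⟨n+1, X n, by simp [pre], rfl⟩
    · rintro ⟨s, a, ha, rfl⟩
      simp only [pre, List.getElem?_map, Option.map_eq_some_iff] at ha
      obtain ⟨b, hb, rfl⟩ := ha
      have hn : n < s := by
        by_contra hcon
        rw [List.getElem?_eq_none (by simpa using hcon)] at hb
        simp at hb
      rw [List.getElem?_range hn] at hb
      simp at hb
      rw [hb]

lemma hasUse_pair (X : ℕ → Bool) {f h : ℕ →. ℕ} (hf : HasUse X f) (hh : HasUse X h) :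
    HasUse X (fun n => (Nat.pair <$> f n <*> h n)) := by
  obtain ⟨G, hG, mG, sG⟩ := hf
  obtain ⟨K, hK, mK, sK⟩ := hh
  refine ⟨fun σ n => (G σ n).bind fun a => (K σ n).map fun b => Nat.pair a b, ?_, ?_, ?_⟩
  · refine Partrec.bind hG ?_
    refine Partrec.map (f := fun p : (List Bool × ℕ) × ℕ => K p.1.1 p.1.2)
      (hK.comp (Computable.fst.comp Computable.fst) (Computable.snd.comp Computable.fst)) ?_
    exact Primrec₂.natPair.to_comp.comp₂ ((Computable.snd.comp Computable.fst).to₂)
      Computable.snd.to₂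
  · intro σ τ n v hst h
    simp only [Part.mem_bind_iff, Part.mem_map_iff] at h ⊢
    obtain ⟨a, ha, b, hb, rfl⟩ := h
    exact ⟨a, mG _ _ _ _ hst ha, b, mK _ _ _ _ hst hb, rfl⟩
  · intro n v
    have e : (Nat.pair <$> f n <*> h n) = (f n).bind fun a => (h n).map fun b => Nat.pair a b := by
      simp [Seq.seq, Part.bind_map]
    show v ∈ (Nat.pair <$> f n <*> h n) ↔ _
    rw [e]
    simp only [Part.mem_bind_iff, Part.mem_map_iff]
    constructor
    · rintro ⟨a, ha, b, hb, rfl⟩
      obtain ⟨s, hs⟩ := (sG _ _).1 ha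
      obtain ⟨t, ht⟩ := (sK _ _).1 hb
      exact ⟨max s t, a, mG _ _ _ _ (pre_prefix X (le_max_left _ _)) hs, b,
        mK _ _ _ _ (pre_prefix X (le_max_right _ _)) ht, rfl⟩
    · rintro ⟨s, a, ha, b, hb, rfl⟩
      exact ⟨a, (sG _ _).2 ⟨s, ha⟩, b, (sK _ _).2 ⟨s, hb⟩, rfl⟩

lemma hasUse_comp (X : ℕ → Bool) {f h : ℕ →. ℕ} (hf : HasUse X f) (hh : HasUse X h) :
    HasUse X (fun n => h n >>= f) := by
  obtain ⟨G, hG, mG, sG⟩ := hf
  obtain ⟨K, hK, mK, sK⟩ := hh
  refine ⟨fun σ n => (K σ n).bind fun a => G σ a, ?_, ?_, ?_⟩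
  · refine Partrec.bind hK ?_
    exact hG.comp (Computable.fst.comp Computable.fst) Computable.snd
  · intro σ τ n v hst h
    simp only [Part.mem_bind_iff] at h ⊢
    obtain ⟨a, ha, hb⟩ := h
    exact ⟨a, mK _ _ _ _ hst ha, mG _ _ _ _ hst hb⟩
  · intro n v
    show v ∈ (h n).bind f ↔ _
    simp only [Part.mem_bind_iff]
    constructor
    · rintro ⟨a, ha, hb⟩
      obtain ⟨s, hs⟩ := (sK _ _).1 ha
      obtain ⟨t, ht⟩ := (sG _ _).1 hb
      exact ⟨max s t, a, mK _ _ _ _ (pre_prefix X (le_max_left _ _)) hs,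
        mG _ _ _ _ (pre_prefix X (le_max_right _ _)) ht⟩
    · rintro ⟨s, a, ha, hb⟩
      exact ⟨a, (sK _ _).2 ⟨s, ha⟩, (sG _ _).2 ⟨s, hb⟩⟩

/-- primitive recursion on partial values -/
def prc (g : ℕ →. ℕ) (k : ℕ →. ℕ) (a n : ℕ) : Part ℕ :=
  Nat.rec (g a) (fun y IH => IH.bind fun i => k (Nat.pair a (Nat.pair y i))) n

lemma prc_zero (g k : ℕ →. ℕ) (a : ℕ) : prc g k a 0 = g a := rfl

lemma mem_prc_succ (g k : ℕ →. ℕ) (a n v : ℕ) :
    v ∈ prc g k a (n+1) ↔ ∃ i, i ∈ prc g k a n ∧ v ∈ k (Nat.pair a (Nat.pair n i)) := by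
  show v ∈ (prc g k a n).bind (fun i => k (Nat.pair a (Nat.pair n i))) ↔ _
  simp only [Part.mem_bind_iff]

lemma hasUse_prec (X : ℕ → Bool) {f h : ℕ →. ℕ} (hf : HasUse X f) (hh : HasUse X h) :
    HasUse X (fun p =>
        let (a, n) := Nat.unpair p
        n.rec (f a) fun y IH => do
          let i ← IH
          h (Nat.pair a (Nat.pair y i))) := by
  obtain ⟨G, hG, mG, sG⟩ := hf
  obtain ⟨K, hK, mK, sK⟩ := hh
  have mono : ∀ n a v (σ τ : List Bool), σ <+: τ →
      v ∈ prc (G σ) (K σ) a n → v ∈ prc (G τ) (K τ) a n := by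
    intro n a
    induction n with
    | zero => intro v σ τ hst h; exact mG _ _ _ _ hst h
    | succ n ih =>
      intro v σ τ hst h
      rw [mem_prc_succ] at h ⊢
      obtain ⟨i, hi, hv⟩ := h
      exact ⟨i, ih _ _ _ hst hi, mK _ _ _ _ hst hv⟩
  refine ⟨fun σ p => prc (G σ) (K σ) p.unpair.1 p.unpair.2, ?_, ?_, ?_⟩
  · have h1 : Computable (fun q : List Bool × ℕ => q.2.unpair.2) :=
      Computable.snd.comp (Computable.unpair.comp Computable.snd)
    have h1' : Computable (fun q : List Bool × ℕ => q.2.unpair.1) :=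
      Computable.fst.comp (Computable.unpair.comp Computable.snd)
    have h2 : Partrec (fun q : List Bool × ℕ => G q.1 q.2.unpair.1) :=
      hG.comp Computable.fst h1'
    have h3 : Partrec₂ (fun (q : List Bool × ℕ) (r : ℕ × ℕ) =>
        K q.1 (Nat.pair q.2.unpair.1 (Nat.pair r.1 r.2))) := by
      refine hK.comp (Computable.fst.comp Computable.fst) ?_
      refine Primrec₂.natPair.to_comp.comp (h1'.comp Computable.fst) ?_
      exact Primrec₂.natPair.to_comp.comp (Computable.fst.comp Computable.snd)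
        (Computable.snd.comp Computable.snd)
    exact Partrec.nat_rec h1 h2 h3
  · intro σ τ p v hst h
    exact mono _ _ _ _ _ hst h
  · intro p v
    show v ∈ prc f h p.unpair.1 p.unpair.2 ↔ ∃ s, v ∈ prc (G (pre X s)) (K (pre X s)) _ _
    generalize p.unpair.2 = n
    generalize p.unpair.1 = a
    induction n generalizing v with
    | zero => exact sG _ _
    | succ n ih =>
      simp only [mem_prc_succ]
      constructor
      · rintro ⟨i, hi, hv⟩
        obtain ⟨s, hs⟩ := (ih _).1 hi
        obtain ⟨t, ht⟩ := (sK _ _).1 hv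
        exact ⟨max s t, i, mono _ _ _ _ _ (pre_prefix X (le_max_left _ _)) hs,
          mK _ _ _ _ (pre_prefix X (le_max_right _ _)) ht⟩
      · rintro ⟨s, i, hi, hv⟩
        exact ⟨i, (ih _).2 ⟨s, hi⟩, (sK _ _).2 ⟨s, hv⟩⟩

lemma hasUse_rfind (X : ℕ → Bool) {f : ℕ →. ℕ} (hf : HasUse X f) :
    HasUse X (fun a => Nat.rfind fun n => (fun m => m = 0) <$> f (Nat.pair a n)) := by
  obtain ⟨G, hG, mG, sG⟩ := hf
  refine ⟨fun σ a => Nat.rfind fun n => (G σ (Nat.pair a n)).map (fun m => decide (m = 0)),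
    ?_, ?_, ?_⟩
  · refine Partrec.rfind (p := fun (q : List Bool × ℕ) n =>
      (G q.1 (Nat.pair q.2 n)).map (fun m => decide (m = 0))) ?_
    refine Partrec.map ?_ ?_
    · exact hG.comp (Computable.fst.comp Computable.fst)
        (Primrec₂.natPair.to_comp.comp (Computable.snd.comp Computable.fst) Computable.snd)
    · have : Primrec (fun m : ℕ => decide (m = 0)) :=
        (Primrec.eq.comp Primrec.id (Primrec.const 0)).decide
      exact (this.to_comp.comp Computable.snd).to₂
  · intro σ τ a v hst h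
    rw [Nat.mem_rfind] at h ⊢
    simp only [Part.mem_map_iff] at h ⊢
    obtain ⟨⟨w, hw, hw'⟩, h2⟩ := h
    refine ⟨⟨w, mG _ _ _ _ hst hw, hw'⟩, fun {m} hm => ?_⟩
    obtain ⟨u, hu, hu'⟩ := h2 hm
    exact ⟨u, mG _ _ _ _ hst hu, hu'⟩
  · intro a v
    show v ∈ (Nat.rfind fun n => (f (Nat.pair a n)).map (fun m => decide (m = 0))) ↔ _
    rw [Nat.mem_rfind]
    simp only [Part.mem_map_iff]
    constructor
    · rintro ⟨⟨w, hw, hw'⟩, h2⟩
      obtain ⟨s, hs⟩ := (sG _ _).1 hw
      have h3 : ∃ t, ∀ m < v, ∃ u, u ∈ G (pre X t) (Nat.pair a m) ∧ decide (u = 0) = false := by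
        refine exists_common v
          (fun m t => ∃ u, u ∈ G (pre X t) (Nat.pair a m) ∧ decide (u = 0) = false) ?_ ?_
        · rintro m s t hst ⟨u, hu, hu'⟩
          exact ⟨u, mG _ _ _ _ (pre_prefix X hst) hu, hu'⟩
        · intro m hm
          obtain ⟨u, hu, hu'⟩ := h2 hm
          obtain ⟨s, hs⟩ := (sG _ _).1 hu
          exact ⟨s, u, hs, hu'⟩
      obtain ⟨t, ht⟩ := h3
      refine ⟨max s t, ?_⟩
      rw [Nat.mem_rfind]
      simp only [Part.mem_map_iff]
      refine ⟨⟨w, mG _ _ _ _ (pre_prefix X (le_max_left _ _)) hs, hw'⟩, fun {m} hm => ?_⟩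
      obtain ⟨u, hu, hu'⟩ := ht m hm
      exact ⟨u, mG _ _ _ _ (pre_prefix X (le_max_right _ _)) hu, hu'⟩
    · rintro ⟨s, hs⟩
      rw [Nat.mem_rfind] at hs
      simp only [Part.mem_map_iff] at hs
      obtain ⟨⟨w, hw, hw'⟩, h2⟩ := hs
      refine ⟨⟨w, (sG _ _).2 ⟨s, hw⟩, hw'⟩, fun {m} hm => ?_⟩
      obtain ⟨u, hu, hu'⟩ := h2 hm
      exact ⟨u, (sG _ _).2 ⟨s, hu⟩, hu'⟩

theorem hasUse_of_recursiveIn (X : ℕ → Bool) {f : ℕ →. ℕ} (hf : Nat.RecursiveIn {orc X} f) :
    HasUse X f := by
  induction hf with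
  | zero => exact hasUse_total X (fun _ => 0) (Computable.const 0)
  | succ => exact hasUse_total X Nat.succ Computable.succ
  | left => exact hasUse_total X (fun n => n.unpair.1) (Computable.fst.comp Computable.unpair)
  | right => exact hasUse_total X (fun n => n.unpair.2) (Computable.snd.comp Computable.unpair)
  | oracle g hg => rw [Set.mem_singleton_iff] at hg; rw [hg]; exact hasUse_oracle X
  | pair _ _ ih₁ ih₂ => exact hasUse_pair X ih₁ ih₂
  | comp _ _ ih₁ ih₂ => exact hasUse_comp X ih₁ ih₂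
  | prec _ _ ih₁ ih₂ => exact hasUse_prec X ih₁ ih₂
  | rfind _ ih => exact hasUse_rfind X ih

/-- A computable, monotone assignment of outputs to strings: a Turing functional. -/
structure IsFun (F : List Bool → ℕ → Option ℕ) : Prop where
  comp : Computable₂ F
  mono : ∀ σ τ : List Bool, ∀ n v, σ <+: τ → F σ n = some v → F τ n = some v

/-- `ev F X n v`: the functional `F` with oracle `X` gives the output `v` at `n`. -/
def ev (F : List Bool → ℕ → Option ℕ) (X : ℕ → Bool) (n v : ℕ) : Prop :=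
  ∃ s, F (pre X s) n = some v

open Nat.Partrec in
/-- stage-bounded search -/
def srchN (c : Code) (σ : List Bool) (n : ℕ) (N : ℕ) : Option ℕ :=
  Nat.rec (motive := fun _ => Option ℕ) Option.none
    (fun j acc => acc <|> Code.evaln σ.length c (encode (σ.take j, n))) N

open Nat.Partrec in
/-- stage-bounded search over all initial segments -/
def srch (c : Code) (σ : List Bool) (n : ℕ) : Option ℕ := srchN c σ n (σ.length + 1)

open Nat.Partrec in
lemma computable_srch (c : Code) : Computable₂ (srch c) := by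
  have h1 : Computable (fun q : List Bool × ℕ => q.1.length + 1) :=
    Computable.succ.comp (Computable.list_length.comp Computable.fst)
  have h2 : Computable₂ (fun (q : List Bool × ℕ) (r : ℕ × Option ℕ) =>
      (r.2 <|> Code.evaln q.1.length c (encode (q.1.take r.1, q.2)))) := by
    refine Primrec.option_orElse.to_comp.comp₂ ((Computable.snd.comp Computable.snd).to₂) ?_
    have h3 : Computable (fun p : (List Bool × ℕ) × (ℕ × Option ℕ) =>
        ((p.1.1.length, c), encode (p.1.1.take p.2.1, p.1.2))) := by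
      refine Computable.pair ((Computable.pair ?_ (Computable.const c))) ?_
      · exact Computable.list_length.comp (Computable.fst.comp Computable.fst)
      · refine Computable.encode.comp (Computable.pair ?_ (Computable.snd.comp Computable.fst))
        exact Primrec.list_take.to_comp.comp (Computable.fst.comp Computable.snd)
          (Computable.fst.comp Computable.fst)
    exact (Code.primrec_evaln.to_comp.comp h3)
  exact Computable.nat_rec h1 (Computable.const Option.none) h2

open Nat.Partrec in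
lemma srchN_succ (c : Code) (σ : List Bool) (n N : ℕ) :
    srchN c σ n (N+1) = (srchN c σ n N <|> Code.evaln σ.length c (encode (σ.take N, n))) := rfl

open Nat.Partrec in
lemma srch_some {c : Code} {σ : List Bool} {n v : ℕ} (h : srch c σ n = some v) :
    ∃ j ≤ σ.length, Code.evaln σ.length c (encode (σ.take j, n)) = some v := by
  have key : ∀ N, srchN c σ n N = some v →
      ∃ j < N, Code.evaln σ.length c (encode (σ.take j, n)) = some v := by
    intro N
    induction N with
    | zero => intro h; simp [srchN] at h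
    | succ N ih =>
      intro h
      rw [srchN_succ, Option.orElse_eq_some] at h
      rcases h with h | ⟨_, h⟩
      · obtain ⟨j, hj, hj'⟩ := ih h
        exact ⟨j, by omega, hj'⟩
      · exact ⟨N, by omega, h⟩
  obtain ⟨j, hj, hj'⟩ := key _ h
  exact ⟨j, by omega, hj'⟩

open Nat.Partrec in
lemma srch_isSome {c : Code} {σ : List Bool} {n v j : ℕ} (hj : j ≤ σ.length)
    (h : Code.evaln σ.length c (encode (σ.take j, n)) = some v) : ∃ w, srch c σ n = some w := by
  have key : ∀ N, j < N → ∃ w, srchN c σ n N = some w := by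
    intro N
    induction N with
    | zero => intro h; omega
    | succ N ih =>
      intro hN
      rw [srchN_succ]
      simp only [Option.orElse_eq_some]
      rcases Nat.lt_succ_iff_lt_or_eq.1 hN with h1 | h1
      · obtain ⟨w, hw⟩ := ih h1
        exact ⟨w, Or.inl hw⟩
      · cases hh : srchN c σ n N with
        | none =>
          exact ⟨v, Or.inr ⟨rfl, by rw [← h1]; exact h⟩⟩
        | some w => exact ⟨w, Or.inl rfl⟩
  exact key _ (by omega)

open Nat.Partrec in
theorem use_principle (X : ℕ → Bool) {f : ℕ →. ℕ} (hf : Nat.RecursiveIn {orc X} f) :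
    ∃ F, IsFun F ∧ ∀ n v, v ∈ f n ↔ ev F X n v := by
  obtain ⟨G, hG, mG, sG⟩ := hasUse_of_recursiveIn X hf
  obtain ⟨c, hc⟩ := Code.exists_code.1 hG
  have hev : ∀ σ n v, v ∈ Code.eval c (encode (σ, n)) ↔ v ∈ G σ n := by
    intro σ n v
    rw [hc]
    simp only [encodek, Part.coe_some, Part.bind_some]
    simp [Part.map_id']
  have hsound : ∀ σ n v, srch c σ n = some v → v ∈ G σ n := by
    intro σ n v h
    obtain ⟨j, hj, hj'⟩ := srch_some h
    have := Code.evaln_sound (show v ∈ Code.evaln σ.length c (encode (σ.take j, n)) from hj')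
    rw [hev] at this
    exact mG _ _ _ _ (List.take_prefix _ _) this
  refine ⟨srch c, ⟨computable_srch c, ?_⟩, ?_⟩
  · intro σ τ n v hst h
    obtain ⟨j, hj, hj'⟩ := srch_some h
    have h1 : σ.take j = τ.take j := by
      obtain ⟨ρ, rfl⟩ := hst
      rw [List.take_append_of_le_length hj]
    rw [h1] at hj'
    have h2 : Code.evaln τ.length c (encode (τ.take j, n)) = some v :=
      Code.evaln_mono hst.length_le hj'
    obtain ⟨w, hw⟩ := srch_isSome (le_trans hj hst.length_le) h2
    rw [hw]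
    have h3 := hsound _ _ _ hw
    have h4 := mG _ _ _ _ hst (hsound _ _ _ h)
    rw [Part.mem_unique h3 h4]
  · intro n v
    rw [sG]
    constructor
    · rintro ⟨s, hs⟩
      rw [← hev, Code.evaln_complete] at hs
      obtain ⟨k, hk⟩ := hs
      have hk' : Code.evaln (pre X (max s k)).length c
          (encode ((pre X (max s k)).take s, n)) = some v := by
        rw [pre_take X (le_max_left _ _), pre_length]
        exact Code.evaln_mono (le_max_right _ _) hk
      obtain ⟨w, hw⟩ := srch_isSome (by rw [pre_length]; exact le_max_left _ _) hk'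
      refine ⟨max s k, ?_⟩
      rw [hw]
      have h3 := hsound _ _ _ hw
      have h4 : v ∈ G (pre X (max s k)) n := by
        refine mG _ _ _ _ (pre_prefix X (le_max_left s k)) ?_
        rw [← hev]; exact Code.evaln_sound hk
      rw [Part.mem_unique h3 h4]
    · rintro ⟨s, hs⟩
      exact ⟨s, hsound _ _ _ hs⟩

lemma ev_unique {F : List Bool → ℕ → Option ℕ} (hF : IsFun F) {X : ℕ → Bool} {n v w : ℕ}
    (h1 : ev F X n v) (h2 : ev F X n w) : v = w := by
  obtain ⟨s, hs⟩ := h1
  obtain ⟨t, ht⟩ := h2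
  have h3 := hF.mono _ _ _ _ (pre_prefix X (le_max_left s t)) hs
  have h4 := hF.mono _ _ _ _ (pre_prefix X (le_max_right s t)) ht
  rw [h3] at h4
  exact Option.some.inj h4

end Pool.Agent.MP_1b0fb5_lc
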